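import Pool.Agent.MP_68d28f_lc.ce.t1.ImplB

/-!
Block T1, part IMPL: the run, the rules of a stage, and its computability.
-/

namespace Pool.Agent.MP_68d28f_lc.CE.Meet

open Pool.Agent.MP_b427ce_lc

lemma walk_spec (E : Data) (s n : ℕ) :
    (walk E s n).length ≤ n ∧ ((walk E s n).length < n → stopB E (walk E s n) s = true) ∧
      ∀ ν o, ν ++ [o] <+: walk E s n → o = chN E ν s ∧ stopB E ν s = false := by
  induction n with
  | zero =>
    refine ⟨le_rfl, fun h => absurd h (Nat.not_lt_zero _), fun ν o h => ?_⟩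
    have := h.length_le
    simp [walk, natIter] at this
  | succ n ih =>
    obtain ⟨h1, h2, h3⟩ := ih
    have e : walk E s (n + 1) = cond (stopB E (walk E s n) s) (walk E s n)
      (walk E s n ++ [chN E (walk E s n) s]) := rfl
    cases hs : stopB E (walk E s n) s with
    | true =>
      rw [hs, cond_true] at e
      rw [e]
      exact ⟨by omega, fun _ => hs, h3⟩
    | false =>
      rw [hs, cond_false] at e
      have hl : (walk E s n).length = n := by
        by_contra hc
        rw [h2 (by omega)] at hs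
        exact Bool.noConfusion hs
      rw [e]
      refine ⟨by simp [hl], fun h => absurd h (by simp [hl]), fun ν o h => ?_⟩
      rcases List.prefix_concat_iff.1 h with h | h
      · obtain ⟨rfl, h4⟩ := List.append_inj' h rfl
        exact ⟨by simpa using h4, hs⟩
      · exact h3 ν o h

/-- the history before a stage -/
def hist (P : Data) : ℕ → List Ev
  | 0 => []
  | s + 1 => hist P s ++ [stepN (dH P (hist P s)) s]

/-- the data known before a stage -/
def known (P : Data) (s : ℕ) : Data := dH P (hist P s)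

/-- the run -/
def run (P : Data) : Data := mkD P fun s => stepN (known P s) s

lemma hist_eq (P : Data) (s : ℕ) : hist P s = pre (fun s => stepN (known P s) s) s := by
  induction s with
  | zero => rfl
  | succ s ih => rw [pre_succ, ← ih]; rfl

lemma hist_getD (P : Data) {s t : ℕ} (h : t < s) :
    (hist P s).getD t ev0 = stepN (known P t) t := by
  rw [hist_eq, getD_pre _ h]

lemma ag_run (P : Data) (s : ℕ) : Ag (known P s) (run P) s where
  a := rfl
  sp := rfl
  cov := rfl
  vis _ h := congrArg (fun e : Ev => e.1.1) (hist_getD P h)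
  pi _ h := congrArg (fun e : Ev => e.1.2.1) (hist_getD P h)
  pos t h := by
    cases t with
    | zero => rfl
    | succ t => exact congrArg (fun e : Ev => e.1.2.2) (hist_getD P (t := t) h)
  sib _ h := congrArg (fun (e : Ev) (α : List ℕ) => e.2.1.getD α.length []) (hist_getD P h)
  app _ h := congrArg (fun e : Ev => e.2.2.1) (hist_getD P h)
  alt _ h := congrArg (fun e : Ev => e.2.2.2.1) (hist_getD P h)

section steps
variable {P : Data}

lemma run_vis (s : ℕ) : (run P).vis s = visN (known P s) s := rfl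

lemma run_pi (s : ℕ) : (run P).pi s = piN (known P s) s := rfl

lemma run_pos (s : ℕ) : (run P).pos (s + 1) = posN (known P s) s := rfl

lemma run_app (s : ℕ) : (run P).app s = appN (known P s) s := rfl

lemma run_alt (s : ℕ) : (run P).alt s = altN (known P s) s := rfl

lemma run_act (s : ℕ) : (run P).act s = actN (known P s) s := rfl

lemma run_sib {s o : ℕ} {β : List ℕ} (h : β ++ [o] <+: (run P).pi s) :
    (run P).sib s β = fc (known P s) β s := by
  have hl := h.length_le
  rw [List.length_append, List.length_singleton, run_pi] at hl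
  show (sibN (known P s) s).getD β.length [] = _
  rw [sibN, getD_pre _ hl, ← run_pi,
    ← List.prefix_iff_eq_take.1 ((List.prefix_append _ _).trans h)]

lemma pi_vis {s : ℕ} (h : (run P).vis s = true) : (run P).pi s = walk (known P s) s s := by
  rw [run_pi, piN, ← run_vis, h, cond_true]

lemma vis_iff (s : ℕ) : (run P).vis s = true ↔ ¬ ∃ t, (run P).Bad t s := by
  rw [run_vis, visN, Bool.not_eq_true', ← Bool.not_eq_true, List.any_eq_true]
  refine not_congr (exists_congr fun t => ?_)
  rw [(ag_run P s).bad, List.mem_range]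
  exact ⟨fun a => a.2, fun ⟨η, y, a⟩ => ⟨a.1.1.2.2.2, η, y, a⟩⟩

lemma stop_iff {s : ℕ} {ν : List ℕ} : stopB (known P s) ν s = true ↔
    ∃ η x, η.length % 2 = 1 ∧ ν = η ++ [x] ∧ ¬ ∃ t, (run P).Cur t η x s := by
  rw [stopB, Bool.and_eq_true, Bool.and_eq_true, eqB_iff, eqB_iff, Bool.not_eq_true',
    ← Bool.not_eq_true, (ag_run P s).anyCur]
  refine ⟨fun a => ⟨_, _, a⟩, ?_⟩
  rintro ⟨η, x, h1, rfl, h2⟩
  rw [ini_concat, lst_concat]
  exact ⟨h1, rfl, h2⟩

lemma app_iff {s x : ℕ} {η : List ℕ} (h : (run P).pi s = η ++ [x]) (w : List Bool) :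
    appB (known P s) η x s w = true ↔ (run P).AppOK η x s w :=
  (ag_run P s).appOK fun _ hb => run_sib (h ▸ hb.trans (List.prefix_append _ _))

lemma app_spec (s : ℕ) (h : (run P).app s = true) : (run P).vis s = true ∧
    ∃ η x, η.length % 2 = 1 ∧ (run P).pi s = η ++ [x] ∧ (¬ ∃ t, (run P).Cur t η x s) ∧
      (run P).AppOK η x s ((run P).alt s) := by
  rw [run_app, appN, Bool.and_eq_true, Bool.and_eq_true, ← run_pi] at h
  obtain ⟨h1, h2, h3⟩ := h
  obtain ⟨η, x, a1, a2, a3⟩ := stop_iff.1 h2
  refine ⟨h1, η, x, a1, a2, a3, (app_iff a2 _).1 ?_⟩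
  have := fstr_spec h3
  rw [run_alt, altN, ← run_pi]
  rw [a2, ini_concat, lst_concat] at this ⊢
  exact this

lemma steps_run (ha : ∀ s n, P.a s n = true → n < s) : (run P).Steps where
  pos0 := rfl
  vis_iff := vis_iff
  vis_pos s h := by
    rw [run_pos, posN, ← run_vis, h, cond_true, (ag_run P s).pos s le_rfl, Data.nxt]
  vis_len s h := pi_vis h ▸ (walk_spec _ s s).1
  vis_R s α o he h := by
    have h1 := ((walk_spec _ s s).2.2 α o (pi_vis h.1 ▸ h.2)).1
    rw [chN, eqB_iff.2 he, cond_true] at h1
    cases hc : (strs (s + 1)).any fun w => candB (known P s) α s w with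
    | true =>
      rw [hc, cond_true] at h1
      exact Or.inl ⟨h1, (ag_run P s).cand.1 (run_sib h.2 ▸ fstr_spec hc)⟩
    | false =>
      rw [hc, cond_false] at h1
      refine Or.inr ⟨h1, fun w hw => ?_⟩
      rw [List.any_eq_true.2 ⟨w, mem_strs hw.1.1, (ag_run P s).cand.2 hw⟩] at hc
      exact Bool.noConfusion hc
  vis_P s η x ho h := by
    have h1 := ((walk_spec _ s s).2.2 η x (pi_vis h.1 ▸ h.2)).1
    rw [chN, eqB_false_iff.2 (by omega), cond_false] at h1
    have h2 : (!passB (known P s) η s s) = true := by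
      rw [Bool.not_eq_true', ← Bool.not_eq_true, (ag_run P s).pass]
      rintro (a | ⟨t, a, -⟩)
      · exact lt_irrefl _ (ha s s a)
      · obtain ⟨-, η', x', -, b1, -, b2⟩ := app_spec t a.1.1
        obtain ⟨rfl, b3⟩ := List.append_inj' (a.1.2.1.symm.trans b1) rfl
        obtain rfl : s = x' := by simpa using b3
        have := b2.2.1
        have := Data.R_le (D := run P) (η ++ [s]) t
        have := a.1.2.2.2
        omega
    obtain ⟨a1, -, a2⟩ := least_spec (p := fun x => !passB (known P s) η x s)
      (Nat.lt_succ_self s) h2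
    rw [← h1] at a1 a2
    rw [Bool.not_eq_true', ← Bool.not_eq_true, (ag_run P s).pass] at a1
    exact ⟨a1, fun x' hx => (ag_run P s).pass.1 (by simpa using a2 x' hx)⟩
  vis_go s η x ho h hne := by
    obtain ⟨u, hu⟩ := h.2
    cases u with
    | nil => exact absurd (by simpa using hu) hne
    | cons o u =>
      have h1 : η ++ [x] ++ [o] <+: walk (known P s) s s :=
        ⟨u, by rw [← pi_vis h.1, ← hu]; simp⟩
      have h2 := ((walk_spec _ s s).2.2 _ o h1).2
      by_contra hc
      rw [stop_iff.2 ⟨η, x, ho, rfl, hc⟩] at h2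
      exact Bool.noConfusion h2
  app_spec := app_spec
  stop s h hl := by
    have h1 : stopB (known P s) ((run P).pi s) s = true := by
      rw [pi_vis h] at hl ⊢
      exact (walk_spec _ s s).2.1 hl
    obtain ⟨η, x, a1, a2, a3⟩ := stop_iff.1 h1
    refine ⟨η, x, a1, a2, a3, or_iff_not_imp_right.2 fun hc => ?_⟩
    obtain ⟨w, hw⟩ := not_forall.1 hc
    rw [not_not] at hw
    rw [run_app, appN, ← run_vis, ← run_pi, h, h1, a2, ini_concat, lst_concat]
    exact List.any_eq_true.2 ⟨w, mem_strs hw.1, (app_iff a2 w).2 hw⟩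
  act_spec s h := by
    obtain ⟨t, ht⟩ := not_not.1 (mt (vis_iff s).2 h)
    have hts : t < s := by
      obtain ⟨_, _, a, -⟩ := ht
      exact a.1.2.2.2
    obtain ⟨a1, a2, a3⟩ := least_spec (p := fun t => badB (known P s) t s) hts
      ((ag_run P s).bad.2 ht)
    have hv : visN (known P s) s = false := Bool.eq_false_iff.2 h
    refine ⟨(ag_run P s).bad.1 a1, fun t' h' b => a3 t' h' ((ag_run P s).bad.2 b), ?_, ?_⟩
    · rw [run_pi s, piN, hv, cond_false]
      exact (ag_run P s).pi _ a2
    · rintro ⟨w, hw⟩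
      rw [run_pos, posN, hv, cond_false]
      exact ((ag_run P s).good a2).1 (fstr_spec (p := fun w => goodB (known P s) _ s w)
        (List.any_eq_true.2 ⟨w, mem_strs hw.1.le, ((ag_run P s).good a2).2 hw⟩))

end steps

lemma c_hist {O : Set (ℕ →. ℕ)} {P : Data} [PC O P] : ComputableIn O (hist P) :=
  c_seq (F := fun n H => H ++ [stepN (dH P H) n]) (by fun_prop) fun _ => rfl

lemma comp_run {O : Set (ℕ →. ℕ)} {P : Data} [PC O P] : (run P).Comp O where
  pos := cin_of_eq (c_pos (P := P) c_hist c_id) fun s => (ag_run P s).pos s le_rfl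
  pi := c_piN c_hist c_id
  vis := c_visN c_hist c_id
  app := c_appN c_hist c_id
  inT := ⟨fun α s w => memB w (tL (known P s) α s),
    c_memB (by fun_prop) (c_tL (c_comp c_hist (by fun_prop)) (by fun_prop) (by fun_prop)),
    fun _ s _ => memB_iff.trans (ag_run P s).mem_tL⟩
  preCand := ⟨fun α s w => preCB (known P s) α s w,
    c_preCB (c_comp c_hist (by fun_prop)) (by fun_prop) (by fun_prop) (by fun_prop),
    fun _ s _ => (ag_run P s).preC⟩

theorem stImpl : StImpl := by
  intro O a sp cov ha hsp hcov hlt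
  let P : Data := ⟨a, sp, cov, fun _ => true, fun _ => [], fun _ => [], fun _ _ => [],
    fun _ => false, fun _ => [], fun _ => 0⟩
  have : PC O P := ⟨ha, hsp, hcov⟩
  exact ⟨run P, rfl, rfl, rfl, steps_run hlt, comp_run⟩

end Pool.Agent.MP_68d28f_lc.CE.Meet
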