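import Pool.Agent.MP_68d28f_lc.ce.t1.Spec

/-! Block T1, part MAIN: from the run to the degrees. -/

namespace Pool.Agent.MP_68d28f_lc.CE.Meet

open Pool.Agent.MP_b427ce_lc

namespace Main

/-- boolean strings as strings of numbers -/
def nb (u : List Bool) : List ℕ := u.map Bool.toNat

/-- the output of the functional `e` on `u` joined with `G` -/
def Phi (G : ℕ → ℕ) (e : ℕ) (u : List Bool) : List ℕ := out e (zip2 (nb u) (pre G u.length))

/-- the outputs are incompatible -/
def spB (G : ℕ → ℕ) (e : ℕ) (u v : List Bool) : Bool :=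
  !(preB (Phi G e u) (Phi G e v)) && !(preB (Phi G e v) (Phi G e u))

/-- the string is computed through the reduction `θ` -/
def covB (G : ℕ → ℕ) (θ e : ℕ) (σ τ : List Bool) : Bool := preB (nb τ) (out e (Phi G θ σ))

/-- the enumeration -/
def enB (R : ℕ → ℕ → Bool) (s n : ℕ) : Bool := leB (n + 1) s && (List.range s).any (R n)

/-- decoding a stage and a string -/
def dc (w : ℕ) : ℕ × List Bool := (Encodable.decode w : Option (ℕ × List Bool)).getD (0, [])

lemma dc_encode (p : ℕ × List Bool) : dc (Encodable.encode p) = p := by simp [dc]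

section comp
variable {α : Type} [Primcodable α] {O : Set (ℕ →. ℕ)}

@[fun_prop] lemma c_nb {f : α → List Bool} (hf : ComputableIn O f) :
    ComputableIn O fun a => nb (f a) := by
  unfold nb
  exact c_map hf (g := fun _ b => b.toNat) (by fun_prop)

@[fun_prop] lemma c_dc {f : α → ℕ} (hf : ComputableIn O f) : ComputableIn O fun a => dc (f a) := by
  unfold dc; fun_prop

lemma c_Phi {G : ℕ → ℕ} (hG : ComputableIn O G) {e : α → ℕ} {f : α → List Bool}
    (he : ComputableIn O e) (hf : ComputableIn O f) :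
    ComputableIn O fun a => Phi G (e a) (f a) := by
  have h1 : ComputableIn O fun a => pre G (f a).length :=
    c_pre (f := fun _ n => G n) (c_comp hG (by fun_prop)) (by fun_prop)
  unfold Phi
  fun_prop

lemma c_enB {R : ℕ → ℕ → Bool} (hR : Computable fun p : ℕ × ℕ => R p.1 p.2) :
    ComputableIn O fun p : ℕ × ℕ => enB R p.1 p.2 := by
  have hR' : ComputableIn O fun p : ℕ × ℕ => R p.1 p.2 := ofC hR
  unfold enB
  refine c_and (by fun_prop) (c_any (by fun_prop) ?_)
  exact c_comp hR' (g := fun p : (ℕ × ℕ) × ℕ => (p.1.2, p.2)) (by fun_prop)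

end comp

lemma spB_iff {G : ℕ → ℕ} {e : ℕ} {u v : List Bool} :
    spB G e u v = true ↔ inc (Phi G e u) (Phi G e v) := by
  simp only [spB, inc, Bool.and_eq_true, Bool.not_eq_true', ← preB_iff, Bool.not_eq_true]

lemma enB_iff {R : ℕ → ℕ → Bool} {s n : ℕ} :
    enB R s n = true ↔ n < s ∧ ∃ w, w < s ∧ R n w = true := by
  simp [enB]

lemma nb_mono {u v : List Bool} (h : u <+: v) : nb u <+: nb v := h.map _

lemma nb_inj {u v : List Bool} (h : nb u = nb v) : u = v :=
  List.map_injective_iff.2 (fun a b hab => by revert a b; decide) h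

lemma Phi_mono (G : ℕ → ℕ) (e : ℕ) {u v : List Bool} (h : u <+: v) : Phi G e u <+: Phi G e v :=
  out_mono e (zip2_mono (nb_mono h) (pre_isPrefix G h.length_le))

lemma nb_pre (M : ℕ → Bool) (n : ℕ) : nb (pre M n) = pre (fun k => (M k).toNat) n := map_pre _ _ _

lemma Phi_pre (G : ℕ → ℕ) (e : ℕ) (M : ℕ → Bool) (n : ℕ) :
    Phi G e (pre M n) = out e (pre (jn (fun k => (M k).toNat) G) n) := by
  rw [Phi, nb_pre, length_pre, pre_jn]

lemma par {D : Data} {G : ℕ → ℕ} {θ : ℕ} {R : ℕ → ℕ → Bool} (h1 : D.a = enB R)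
    (h2 : D.sp = spB G) (h3 : D.cov = covB G θ) : D.Par := by
  refine ⟨?_, ?_, ?_, ?_, ?_, ?_, ?_⟩
  · intro s n h
    rw [h1, enB_iff] at h ⊢
    obtain ⟨a1, w, a2, a3⟩ := h
    exact ⟨by omega, w, by omega, a3⟩
  · intro s n h
    rw [h1, enB_iff] at h
    exact h.1
  · intro e u v h
    rw [h2, spB_iff] at h ⊢
    exact h.symm
  · intro e u u' v hu h
    rw [h2, spB_iff] at h ⊢
    exact h.mono (Phi_mono G e hu) (List.prefix_refl _)
  · intro e u h
    rw [h2, spB_iff] at h
    exact h.1 (List.prefix_refl _)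
  · intro e σ σ' w hσ h
    rw [h3, covB, preB_iff] at h ⊢
    exact h.trans (out_mono e (Phi_mono G θ hσ))
  · intro e σ w w' hw h
    rw [h3, covB, preB_iff] at h ⊢
    exact (nb_mono hw).trans h

/-- the enumeration has settled below `k` at the stage `s` -/
def Settled (D : Data) (A : ℕ → Bool) (k s : ℕ) : Prop := k ≤ s ∧ ∀ n, n < k → D.a s n = A n

lemma Settled.up {D : Data} {A : ℕ → Bool} (hP : D.Par)
    (hA : ∀ n, A n = true ↔ ∃ s, D.a s n = true) {k s s' : ℕ} (h : Settled D A k s)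
    (hs : s ≤ s') : Settled D A k s' := by
  refine ⟨h.1.trans hs, fun n hn => ?_⟩
  cases h1 : A n with
  | true => exact hP.a_le hs ((h.2 n hn).trans h1)
  | false =>
    by_contra h2
    rw [(hA n).2 ⟨s', by simpa using h2⟩] at h1
    exact absurd h1 (by simp)

lemma exists_settled {D : Data} {A : ℕ → Bool} (hP : D.Par)
    (hA : ∀ n, A n = true ↔ ∃ s, D.a s n = true) (k : ℕ) : ∃ s, Settled D A k s := by
  induction k with
  | zero => exact ⟨0, le_rfl, fun n hn => absurd hn (by omega)⟩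
  | succ k ih =>
    obtain ⟨s, hs⟩ := ih
    have : ∃ s1, ∀ s', s1 ≤ s' → D.a s' k = A k := by
      cases h1 : A k with
      | true =>
        obtain ⟨s1, h2⟩ := (hA k).1 h1
        exact ⟨s1, fun s' hs' => hP.a_le hs' h2⟩
      | false =>
        refine ⟨0, fun s' _ => ?_⟩
        by_contra h2
        rw [(hA k).2 ⟨s', by simpa using h2⟩] at h1
        exact absurd h1 (by simp)
    obtain ⟨s1, hs1⟩ := this
    refine ⟨max (max s s1) (k + 1), le_max_right _ _, fun n hn => ?_⟩
    rcases Nat.lt_succ_iff_lt_or_eq.1 hn with h | rfl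
    · exact (hs.up hP hA (by omega)).2 n h
    · exact hs1 _ (by omega)

lemma take_const {D : Data} {A : ℕ → Bool} (hP : D.Par) (hF : D.Facts)
    (hA : ∀ n, A n = true ↔ ∃ s, D.a s n = true) {k s s' : ℕ} (h : Settled D A k s)
    (hs : s ≤ s') : (D.pos (s + 1)).take k <+: D.pos (s' + 1) := by
  induction hs with
  | refl => exact List.take_prefix _ _
  | @step m hm ih =>
    have h1 := hF.perm m k fun n hn => by
      rw [(h.up hP hA hm).2 n hn, (h.up hP hA (Nat.le_succ_of_le hm)).2 n hn]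
    refine List.IsPrefix.trans ?_ h1
    refine List.prefix_of_prefix_length_le ih (List.take_prefix _ _) ?_
    have := h.1
    have hm' : s ≤ m := hm
    simp only [List.length_take, hF.len_pos]
    omega

lemma get_const {D : Data} {A : ℕ → Bool} (hP : D.Par) (hF : D.Facts)
    (hA : ∀ n, A n = true ↔ ∃ s, D.a s n = true) {k s s' : ℕ} (h : Settled D A (k + 1) s)
    (hs : s ≤ s') : (D.pos (s' + 1)).getD k false = (D.pos (s + 1)).getD k false := by
  have hl : k < ((D.pos (s + 1)).take (k + 1)).length := by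
    have := h.1
    simp only [List.length_take, hF.len_pos]
    omega
  rw [getD_of_isPrefix (take_const hP hF hA h hs) hl,
    getD_of_isPrefix (List.take_prefix (k + 1) (D.pos (s + 1))) hl]

lemma exists_lim {D : Data} {A : ℕ → Bool} (hP : D.Par) (hF : D.Facts)
    (hA : ∀ n, A n = true ↔ ∃ s, D.a s n = true) :
    ∃ M : ℕ → Bool, D.Lim A M ∧
      ∀ k s, Settled D A (k + 1) s → (D.pos (s + 1)).getD k false = M k := by
  choose S hS using fun k => exists_settled hP hA (k + 1)
  have key : ∀ k s, Settled D A (k + 1) s →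
      (D.pos (s + 1)).getD k false = (D.pos (S k + 1)).getD k false := fun k s h => by
    rw [← get_const hP hF hA h (le_max_left s (S k)),
      get_const hP hF hA (hS k) (le_max_right s (S k))]
  refine ⟨fun k => (D.pos (S k + 1)).getD k false, ⟨hA, fun k => ?_⟩, key⟩
  obtain ⟨s0, h0⟩ := exists_settled hP hA k
  refine ⟨s0 + 1, fun s hs => ?_⟩
  obtain ⟨s, rfl⟩ : ∃ r, s = r + 1 := ⟨s - 1, by omega⟩
  have h1 := h0.up hP hA (show s0 ≤ s by omega)
  have h2 : (D.pos (s + 1)).take k = pre (fun k => (D.pos (S k + 1)).getD k false) k := by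
    have hk := h1.1
    refine eq_pre_of (d := false) (by simp only [List.length_take, hF.len_pos]; omega)
      fun j hj => ?_
    rw [← key j s ⟨by omega, fun n hn => h1.2 n (by omega)⟩]
    exact (getD_of_isPrefix (List.take_prefix k _)
      (by simp only [List.length_take, hF.len_pos]; omega) _).symm
  rw [← h2]
  exact List.take_prefix _ _

lemma cov_iff {G B : ℕ → ℕ} {θ e : ℕ} {A M : ℕ → Bool}
    (hθ : Cmp θ (jn (fun k => (A k).toNat) G) B) :
    (∀ n, ∃ u, covB G θ e (pre A u) (pre M n) = true) ↔ Cmp e B fun k => (M k).toNat := by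
  constructor
  · intro h x
    obtain ⟨u, hu⟩ := h (x + 1)
    rw [covB, preB_iff, nb_pre, Phi_pre, hθ.out_eq] at hu
    have hl := hu.length_le
    rw [length_pre] at hl
    refine ⟨_, (ev_out (lt_of_lt_of_le (Nat.lt_succ_self x) hl)).trans ?_⟩
    rw [getD_of_isPrefix hu (by simp), getD_pre _ (Nat.lt_succ_self x)]
  · intro h n
    obtain ⟨m, hm⟩ := h.out_long n
    obtain ⟨u, hu⟩ := hθ.out_long m
    refine ⟨u, ?_⟩
    rw [covB, preB_iff, nb_pre, Phi_pre, hθ.out_eq, h.out_eq]
    exact pre_isPrefix _ (hm _ (hu u le_rfl))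

lemma tree {D : Data} {G C : ℕ → ℕ} {M : ℕ → Bool} {e : ℕ} (hC : D.Comp (orc G))
    (h2 : D.sp = spB G) (he : Cmp e (jn (fun k => (M k).toNat) G) C) (h : D.OutTree M e) :
    Red (fun k => (M k).toNat) (jn C G) := by
  obtain ⟨α, s0, a1, a2⟩ := h
  obtain ⟨f, hf, hf'⟩ := hC.inT
  have hG : ComputableIn (orc (jn C G)) G := red_jn_right C G
  have hCc : ComputableIn (orc (jn C G)) C := red_jn_left C G
  have hf2 := cin_trans hf (red_jn_right C G)
  have hphi : ComputableIn (orc (jn C G)) fun p : ℕ × ℕ => Phi G e (dc p.2).2 :=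
    c_Phi hG (c_const _) (by fun_prop)
  have hpre : ComputableIn (orc (jn C G)) fun p : ℕ × ℕ => pre C (Phi G e (dc p.2).2).length :=
    c_pre (f := fun _ n => C n) (c_comp hCc (by fun_prop)) (c_length hphi)
  have hfp : ComputableIn (orc (jn C G)) fun p : ℕ × ℕ => f α (dc p.2).1 (dc p.2).2 :=
    c_comp hf2 (g := fun p : ℕ × ℕ => (α, (dc p.2).1, (dc p.2).2)) (by fun_prop)
  refine c_search (P := fun n w => leB s0 (dc w).1 && f α (dc w).1 (dc w).2 &&
      leB (n + 1) (dc w).2.length && eqB (Phi G e (dc w).2) (pre C (Phi G e (dc w).2).length))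
    (v := fun n w => ((dc w).2.getD n false).toNat)
    (c_and (c_and (c_and (by fun_prop) hfp) (by fun_prop)) (c_eqB hphi hpre)) (by fun_prop)
    (fun n => ?_) fun n w hw => ?_
  · obtain ⟨s, k, b1, b2, b3⟩ := a2 (n + 1)
    refine ⟨Encodable.encode (s, pre M k), ?_⟩
    simp only [dc_encode, Bool.and_eq_true, leB_iff, eqB_iff, hf', length_pre, Phi_pre]
    exact ⟨⟨⟨b1, b3⟩, b2⟩, he.out_eq k⟩
  · simp only [Bool.and_eq_true, leB_iff, eqB_iff, hf'] at hw
    obtain ⟨⟨⟨b1, b2⟩, b3⟩, b4⟩ := hw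
    obtain ⟨s, k, c1, c2, c3⟩ := a2 (dc w).2.length
    have hpv : (dc w).2 <+: pre M k := by
      rcases a1 _ _ _ _ b1 c1 b2 c3 with h | h | h
      · exact h
      · rw [h.eq_of_length_le (by simpa using c2)]
      · rw [h2, spB_iff, Phi_pre, he.out_eq, b4] at h
        exact (h.not_both (pre_isPrefix C (le_max_left _ _))
          (pre_isPrefix C (le_max_right _ _))).elim
    rw [← getD_of_isPrefix hpv b3, getD_pre _ (by omega)]

lemma flat {D : Data} {G C : ℕ → ℕ} {M : ℕ → Bool} {e : ℕ} (hC : D.Comp (orc G))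
    (h2 : D.sp = spB G) (he : Cmp e (jn (fun k => (M k).toNat) G) C) (h : D.OutFlat M e) :
    Red C G := by
  obtain ⟨α, s0, a1, a2⟩ := h
  obtain ⟨f, hf, hf'⟩ := hC.preCand
  have hG : ComputableIn (orc G) G := Red.refl G
  have hvis := hC.vis
  have hpi := hC.pi
  have hphi : ComputableIn (orc G) fun p : ℕ × ℕ => Phi G e (dc p.2).2 :=
    c_Phi hG (c_const _) (by fun_prop)
  have hfp : ComputableIn (orc G) fun p : ℕ × ℕ => f α (dc p.2).1 (dc p.2).2 :=
    c_comp hf (g := fun p : ℕ × ℕ => (α, (dc p.2).1, (dc p.2).2)) (by fun_prop)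
  refine c_search (P := fun n w => leB s0 (dc w).1 && D.vis (dc w).1 &&
      preB α (D.pi (dc w).1) && f α (dc w).1 (dc w).2 &&
      leB (n + 1) (Phi G e (dc w).2).length)
    (v := fun n w => (Phi G e (dc w).2).getD n 0)
    (c_and (c_and (by fun_prop) hfp) (c_leB (by fun_prop) (c_length hphi)))
    (c_getD hphi (by fun_prop) (c_const _)) (fun n => ?_) fun n w hw => ?_
  · obtain ⟨m, hm⟩ := he.out_long (n + 1)
    obtain ⟨t, k, b1, b2, b3, b4⟩ := a2 m
    refine ⟨Encodable.encode (t, pre M k), ?_⟩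
    simp only [dc_encode, Bool.and_eq_true, leB_iff, preB_iff, hf', Phi_pre]
    exact ⟨⟨⟨⟨b1, b3.1⟩, b3.2⟩, b4⟩, hm k b2⟩
  · simp only [Bool.and_eq_true, leB_iff, preB_iff, hf'] at hw
    obtain ⟨⟨⟨⟨b1, b2⟩, b3⟩, b4⟩, b5⟩ := hw
    obtain ⟨m, hm⟩ := he.out_long (Phi G e (dc w).2).length
    have h3 := a1 _ _ m b1 ⟨b2, b3⟩ b4
    rw [h2, spB_iff, Phi_pre, he.out_eq] at h3
    have h4 := hm m le_rfl
    have h5 : Phi G e (dc w).2 <+:
        pre C (out e (pre (jn (fun k => (M k).toNat) G) m)).length := by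
      by_contra h6
      refine h3 ⟨fun h7 => h6 ?_, h6⟩
      rw [h7.eq_of_length_le (by simpa using h4)]
    rw [← getD_of_isPrefix h5 b5, getD_pre _ (by omega)]

end Main

open Main in
theorem stMain : StMain := by
  classical
  intro hInv hPath hImpl W G B hW hGB hB hWB
  obtain ⟨R, hR, hR'⟩ := isRE_iff.1 hW
  obtain ⟨θ, hθ⟩ := red_iff.1 hB
  have hG : ComputableIn (orc G) G := Red.refl G
  have hp1 : ComputableIn (orc G) fun p : ℕ × List Bool × List Bool => Phi G p.1 p.2.1 :=
    c_Phi hG (by fun_prop) (by fun_prop)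
  have hp2 : ComputableIn (orc G) fun p : ℕ × List Bool × List Bool => Phi G p.1 p.2.2 :=
    c_Phi hG (by fun_prop) (by fun_prop)
  have hp3 : ComputableIn (orc G) fun p : ℕ × List Bool × List Bool => Phi G θ p.2.1 :=
    c_Phi hG (c_const _) (by fun_prop)
  obtain ⟨D, h1, h2, h3, hS, hC⟩ := hImpl (orc G) (enB R) (spB G) (covB G θ) (c_enB hR)
    (c_and (c_not (c_preB hp1 hp2)) (c_not (c_preB hp2 hp1)))
    (c_preB (by fun_prop) (c_out (by fun_prop) hp3)) fun s n h => (enB_iff.1 h).1
  have hP : D.Par := par h1 h2 h3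
  have hF := hInv D hP hS
  let A : ℕ → Bool := fun n => decide (n ∈ W)
  have hchi : (fun k => (A k).toNat) = chi W := by
    funext k
    by_cases hk : k ∈ W
    · simp [A, hk, chi_mem hk]
    · simp [A, hk, chi_notMem hk]
  have hA : ∀ n, A n = true ↔ ∃ s, D.a s n = true := by
    intro n
    simp only [A, decide_eq_true_eq, hR', h1, enB_iff]
    constructor
    · rintro ⟨w, hw⟩
      exact ⟨max n w + 1, by omega, w, by omega, hw⟩
    · rintro ⟨s, _, w, _, hw⟩
      exact ⟨w, hw⟩
  obtain ⟨M, hL, hM⟩ := exists_lim hP hF hA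
  have hθ' : Cmp θ (jn (fun k => (A k).toNat) G) B := by rw [hchi]; exact hθ
  have hN : D.NotBelow A M := by
    intro η s0 hc hiff
    rw [h3, cov_iff hθ'] at hc
    have hMB : ComputableIn (orc B) fun k => (M k).toNat := red_iff.2 ⟨_, hc⟩
    have hpos := cin_trans hC.pos hGB
    have hpi := cin_trans hC.pi hGB
    have happ := cin_trans hC.app hGB
    have hRB : ComputableIn (orc B) fun p : ℕ × ℕ => R p.1 p.2 := ofC hR
    have hpre : ComputableIn (orc B) fun p : ℕ × ℕ => pre (fun k => (M k).toNat) (p.2 + 1) :=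
      c_pre (f := fun _ k => (M k).toNat) (c_comp (f := fun k => (M k).toNat)
        (g := fun p : (ℕ × ℕ) × ℕ => p.2) hMB (by fun_prop)) (by fun_prop)
    refine hWB (c_search (P := fun x w => R x w || (leB s0 w && D.app w &&
        eqB (D.pi w) (η ++ [x]) && eqB (nb (D.pos (w + 1))) (pre (fun k => (M k).toNat) (w + 1))))
      (v := fun x w => (R x w).toNat)
      (c_or hRB (c_and (by fun_prop) (c_eqB (by fun_prop) hpre))) (c_toNat hRB)
      (fun x => ?_) fun x w hw => ?_)
    · by_cases hx : x ∈ W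
      · obtain ⟨w, hw⟩ := (hR' x).1 hx
        exact ⟨w, by simp [hw]⟩
      · obtain ⟨t, b1, b2, b3, b4⟩ := (hiff x).1 (by simp [A, hx])
        exact ⟨t, by simp [b1, b2, b3, b4, nb_pre]⟩
    · cases hr : R x w with
      | true => rw [chi_mem ((hR' x).2 ⟨w, hr⟩)]; rfl
      | false =>
        simp only [hr, Bool.false_or, Bool.and_eq_true, leB_iff, eqB_iff] at hw
        obtain ⟨⟨⟨b1, b2⟩, b3⟩, b4⟩ := hw
        have := (hiff x).2 ⟨w, b1, b2, b3, nb_inj (b4.trans (nb_pre M _).symm)⟩
        rw [chi_notMem (by simpa [A] using this)]; rfl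
  have hco : ∀ n, ∃ x, n ≤ x ∧ A x = false := by
    intro n
    by_contra hc
    push Not at hc
    refine hWB (cin_of_eq (f := fun x => (pre (chi W) n).getD x 1) (by fun_prop) fun x => ?_)
    by_cases hx : x < n
    · exact getD_pre _ hx _
    · rw [List.getD_eq_default _ _ (by simpa using hx),
        chi_mem (by simpa [A] using hc x (by omega))]
  have hout := hPath D A M hP hS hF hL hN hco
  refine ⟨fun k => (M k).toNat, ?_, fun h => ?_, fun C hCr => ?_⟩
  · have hpos := cin_trans hC.pos (red_jn_right (chi W) G)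
    have hW' : ComputableIn (orc (jn (chi W) G)) (chi W) := red_jn_left _ _
    have ha : ComputableIn (orc (jn (chi W) G)) fun p : ℕ × ℕ => enB R p.1 p.2 := c_enB hR
    refine c_search (P := fun k s => leB (k + 1) s &&
        (List.range (k + 1)).all fun n => eqB (enB R s n).toNat (chi W n))
      (v := fun k s => ((D.pos (s + 1)).getD k false).toNat)
      (c_and (by fun_prop) (c_all (by fun_prop) (c_eqB (c_toNat
        (c_comp ha (g := fun p : (ℕ × ℕ) × ℕ => (p.1.2, p.2)) (by fun_prop))) (by fun_prop))))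
      (by fun_prop) (fun k => ?_) fun k s hs => ?_
    · obtain ⟨s, b1, b2⟩ := exists_settled hP hA (k + 1)
      refine ⟨s, ?_⟩
      simp only [Bool.and_eq_true, leB_iff, List.all_eq_true, List.mem_range, eqB_iff]
      refine ⟨b1, fun n hn => ?_⟩
      rw [← h1, b2 n hn, ← hchi]
    · simp only [Bool.and_eq_true, leB_iff, List.all_eq_true, List.mem_range, eqB_iff] at hs
      rw [hM k s ⟨hs.1, fun n hn => ?_⟩]
      have := hs.2 n hn
      rw [← h1, ← hchi] at this
      have this' : (D.a s n).toNat = (A n).toNat := this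
      revert this'
      generalize D.a s n = p
      generalize A n = q
      cases p <;> cases q <;> simp
  · obtain ⟨e, he⟩ := red_iff.1 h
    exact (hout e).1 (by rw [h3, cov_iff hθ']; exact he)
  · obtain ⟨e, he⟩ := red_iff.1 hCr
    rcases (hout e).2 with h | h
    · exact Or.inr (tree hC h2 he h)
    · exact Or.inl (flat hC h2 he h)

end Pool.Agent.MP_68d28f_lc.CE.Meet
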