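import Pool.Agent.MP_68d28f_lc.ce.t1.Spec

/-! Block T1, part PATH: the true path argument. -/

namespace Pool.Agent.MP_68d28f_lc.CE.Meet

open Pool.Agent.MP_b427ce_lc Filter

namespace Path

variable {D : Data} {A M : ℕ → Bool}

/-- the node is reset finitely often -/
def Stable (D : Data) (ν : List ℕ) : Prop := ∀ᶠ s in atTop, ¬ D.pi s ≤ ν

/-- the node is visited infinitely often -/
def Inf (D : Data) (ν : List ℕ) : Prop := ∃ᶠ s in atTop, D.Vis ν s

/-- the follower is current for ever -/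
def Perm (D : Data) (t : ℕ) (η : List ℕ) (y : ℕ) : Prop := ∀ s, t < s → D.Cur t η y s

lemma le_concat {a b : List ℕ} {o : ℕ} (h : a ≤ b ++ [o]) :
    a ≤ b ∨ (∃ v, v < o ∧ b ++ [v] <+: a) ∨ a = b ++ [o] := by
  rcases le_iff_prefix_or_lft.1 h with h | h
  · rcases prefix_concat_cases h with h | h
    · exact Or.inr (Or.inr h)
    · exact Or.inl (le_of_prefix h)
  · obtain ⟨p, i, j, hij, h1, h2⟩ := lft_iff.1 h
    rcases prefix_concat_cases h2 with h3 | h3
    · obtain ⟨e1, e2⟩ := List.append_inj' h3 rfl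
      have e3 : j = o := by simpa using e2
      subst e1 e3
      exact Or.inr (Or.inl ⟨i, hij, h1⟩)
    · exact Or.inl (lft_iff.2 ⟨p, i, j, hij, h1, h3⟩).lt.le

lemma concat_inj {a b : List ℕ} {x y : ℕ} (h : a ++ [x] = b ++ [y]) : a = b ∧ x = y := by
  obtain ⟨e1, e2⟩ := List.append_inj' h rfl
  exact ⟨e1, by simpa using e2⟩

lemma fol_vis (hS : D.Steps) {t y s : ℕ} {η : List ℕ} (h : D.Fol t η y s) :
    D.Vis (η ++ [y]) t := ⟨(hS.app_spec t h.1).1, by rw [h.2.1]⟩

lemma fol_odd (hS : D.Steps) {t y s : ℕ} {η : List ℕ} (h : D.Fol t η y s) :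
    η.length % 2 = 1 ∧ y < t := by
  obtain ⟨_, η', x, h1, h2, _, h4⟩ := hS.app_spec t h.1
  obtain ⟨rfl, rfl⟩ := concat_inj (h.2.1.symm.trans h2)
  exact ⟨h1, h4.2.1.trans_le (Data.R_le _ _)⟩

lemma bad_once (hF : D.Facts) (t : ℕ) : ∀ᶠ s in atTop, ¬ D.Bad t s := by
  by_cases h : ∃ s, D.Bad t s
  · obtain ⟨s, hs⟩ := h
    refine eventually_atTop.2 ⟨s + 1, fun s' hs' hb => ?_⟩
    obtain ⟨η, y, hc, _⟩ := hb
    obtain ⟨η', y', hc', _⟩ := id hs
    exact hF.bad_dies t s hs (hF.cur_down t η y s' (s + 1) hc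
      (Nat.lt_succ_of_lt hc'.1.2.2.2) hs').2
  · exact Eventually.of_forall fun s hs => h ⟨s, hs⟩

lemma bad_fin (hF : D.Facts) (n : ℕ) : ∀ᶠ s in atTop, ∀ t ∈ {t | t < n}, ¬ D.Bad t s :=
  (eventually_all_finite (Set.finite_lt_nat n)).2 fun t _ => bad_once hF t

/-- actions follow visits with the same node -/
lemma act_fin (hS : D.Steps) (hF : D.Facts) {Q : List ℕ → Prop}
    (h : ∀ᶠ s in atTop, ¬ (D.vis s = true ∧ Q (D.pi s))) : ∀ᶠ s in atTop, ¬ Q (D.pi s) := by
  obtain ⟨n, hn⟩ := eventually_atTop.1 h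
  filter_upwards [h, bad_fin hF n] with s h1 h2 hq
  by_cases hv : D.vis s = true
  · exact h1 ⟨hv, hq⟩
  · obtain ⟨hb, _, hp, _⟩ := hS.act_spec s hv
    obtain ⟨η, y, hc, _⟩ := id hb
    by_cases ht : D.act s < n
    · exact h2 _ ht hb
    · exact hn (D.act s) (by omega) ⟨(fol_vis hS hc.1).1, hp ▸ hq⟩

lemma vis_inf (hS : D.Steps) (hF : D.Facts) : ∃ᶠ s in atTop, D.vis s = true := by
  intro h
  have := act_fin hS hF (Q := fun _ => True) (h.mono fun s hs hs' => hs hs'.1)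
  obtain ⟨s, hs⟩ := this.exists
  exact hs trivial

/-- the node of a late stage is a child of a node of odd length -/
lemma pi_odd (hS : D.Steps) {s : ℕ} (h : (D.pi s).length < s) :
    ∃ η x, η.length % 2 = 1 ∧ D.pi s = η ++ [x] := by
  by_cases hv : D.vis s = true
  · obtain ⟨η, x, h1, h2, _⟩ := hS.stop s hv h
    exact ⟨η, x, h1, h2⟩
  · obtain ⟨⟨η, y, hc, _⟩, _, hp, _⟩ := hS.act_spec s hv
    exact ⟨η, y, (fol_odd hS hc.1).1, hp.trans hc.1.2.1⟩

lemma root_stable (hS : D.Steps) : Stable D [] := by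
  refine eventually_atTop.2 ⟨1, fun s hs h => ?_⟩
  have h0 : D.pi s = [] := by
    rcases le_iff_prefix_or_lft.1 h with h | h
    · exact List.prefix_nil.1 h
    · exact absurd (List.nil_prefix) h.not_prefix'
  obtain ⟨η, x, _, h2⟩ := pi_odd hS (s := s) (by rw [h0]; exact hs)
  rw [h0] at h2
  simp at h2

lemma root_inf (hS : D.Steps) (hF : D.Facts) : Inf D [] :=
  (vis_inf hS hF).mono fun _ hs => ⟨hs, List.nil_prefix⟩

lemma child_inf {ν : List ℕ} (h1 : Stable D ν) (h2 : Inf D ν) :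
    ∃ᶠ s in atTop, ∃ o, D.Vis (ν ++ [o]) s := by
  refine (h2.and_eventually h1).mono fun s ⟨hv, hn⟩ => ?_
  obtain ⟨o, ho⟩ := exists_concat_prefix hv.2 fun e => hn (le_of_eq e.symm)
  exact ⟨o, hv.1, ho⟩

lemma left_fin (hS : D.Steps) (hF : D.Facts) {ν : List ℕ} {o : ℕ} (h1 : Stable D ν)
    (h2 : ∀ v, v < o → ¬ Inf D (ν ++ [v])) :
    ∀ᶠ s in atTop, D.pi s ≤ ν ++ [o] → D.pi s = ν ++ [o] := by
  have h3 : ∀ᶠ s in atTop, ∀ v ∈ {v | v < o}, ¬ ν ++ [v] <+: D.pi s :=
    (eventually_all_finite (Set.finite_lt_nat o)).2 fun v hv =>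
      act_fin hS hF (Q := fun p => ν ++ [v] <+: p) (not_frequently.1 (h2 v hv))
  filter_upwards [h1, h3] with s h4 h5 h6
  rcases le_concat h6 with h | ⟨v, hv, h⟩ | h
  · exact absurd h h4
  · exact absurd h (h5 v hv)
  · exact h

lemma stable_R (hS : D.Steps) (hF : D.Facts) {α : List ℕ} {o : ℕ} (hα : α.length % 2 = 0)
    (h1 : Stable D α) (h2 : ∀ v, v < o → ¬ Inf D (α ++ [v])) : Stable D (α ++ [o]) := by
  filter_upwards [left_fin hS hF h1 h2, eventually_gt_atTop (α.length + 1)] with s h3 h4 h5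
  have h6 := h3 h5
  obtain ⟨η, x, h7, h8⟩ := pi_odd hS (s := s) (by rw [h6]; simpa using h4)
  obtain ⟨rfl, _⟩ := concat_inj (h6.symm.trans h8)
  omega

lemma eq_of_pre {u v w : List Bool} (h1 : u <+: w) (h2 : v <+: w) (h : u.length = v.length) :
    u = v :=
  (List.prefix_of_prefix_length_le h1 h2 h.le).eq_of_length h

lemma Perm.eq (hF : D.Facts) (hL : D.Lim A M) {t y : ℕ} {η : List ℕ} (h : Perm D t η y) :
    D.pos (t + 1) = pre M (t + 1) := by
  obtain ⟨s0, hs0⟩ := hL.limM (t + 1)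
  exact eq_of_pre (h (max s0 (t + 1)) (by omega)).2 (hs0 _ (le_max_left _ _))
    (by rw [hF.len_pos, length_pre])

lemma a_false (hL : D.Lim A M) {x : ℕ} (h : A x = false) (s : ℕ) : ¬ D.a s x = true := by
  intro hs
  rw [(hL.memA x).2 ⟨s, hs⟩] at h
  exact absurd h (by simp)

lemma a_ev (hP : D.Par) (hL : D.Lim A M) (x : ℕ) : ∀ᶠ s in atTop, D.a s x = A x := by
  cases h : A x with
  | false => exact Eventually.of_forall fun s => by simpa using a_false hL h s
  | true =>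
    obtain ⟨s0, hs0⟩ := (hL.memA x).1 h
    exact eventually_atTop.2 ⟨s0, fun s hs => hP.a_le hs hs0⟩

lemma a_lim (hP : D.Par) (hL : D.Lim A M) (u : ℕ) : ∀ᶠ s in atTop, pre (D.a s) u = pre A u := by
  have : ∀ᶠ s in atTop, ∀ x ∈ {x | x < u}, D.a s x = A x :=
    (eventually_all_finite (Set.finite_lt_nat u)).2 fun x _ => a_ev hP hL x
  exact this.mono fun s hs => pre_congr fun j hj => hs j hj

/-- a number outside the set that is often passed has a permanent covered follower -/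
lemma lemX (hP : D.Par) (hS : D.Steps) (hF : D.Facts) (hL : D.Lim A M) {η : List ℕ} {x : ℕ}
    (h1 : ¬ Inf D (η ++ [x])) (h2 : A x = false) (h3 : ∃ᶠ s in atTop, D.Passed η x s) :
    (∃ t u, Perm D t η x ∧ D.cov (η.length / 2) (pre A u) (D.pos (t + 1)) = true) ∧
      ∀ᶠ s in atTop, D.Passed η x s := by
  obtain ⟨n0, hn0⟩ := eventually_atTop.1 (not_frequently.1 h1)
  have hU : ∀ᶠ s in atTop, pre (D.a s) (D.U (η ++ [x]) s) = pre A (D.U (η ++ [x]) n0) := by
    filter_upwards [a_lim hP hL (D.U (η ++ [x]) n0), eventually_ge_atTop n0] with s h4 h5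
    rw [Data.U_eq_of h5 fun t ht _ => hn0 t ht, h4]
  have key : ∃ t, (∃ᶠ s in atTop, D.Cur t η x s) ∧
      D.cov (η.length / 2) (pre A (D.U (η ++ [x]) n0)) (D.pos (t + 1)) = true := by
    by_contra hc
    push Not at hc
    have h4 : ∀ᶠ s in atTop, ∀ t ∈ {t | t < n0}, ¬ (D.Cur t η x s ∧
        D.cov (η.length / 2) (pre A (D.U (η ++ [x]) n0)) (D.pos (t + 1)) = true) := by
      refine (eventually_all_finite (Set.finite_lt_nat n0)).2 fun t _ => ?_
      by_cases h5 : ∃ᶠ s in atTop, D.Cur t η x s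
      · exact Eventually.of_forall fun s hs => hc t h5 hs.2
      · exact (not_frequently.1 h5).mono fun s hs hs' => hs hs'.1
    obtain ⟨s, h5, h6, h7⟩ := (h3.and_eventually (hU.and h4)).exists
    rcases h5 with h5 | ⟨t, h5, h8⟩
    · exact a_false hL h2 s h5
    · rw [h6] at h8
      refine h7 t ?_ ⟨h5, h8⟩
      by_contra h9
      exact hn0 t (by simpa using h9) (fol_vis hS h5.1)
  obtain ⟨t, h4, h5⟩ := key
  have hp : Perm D t η x := by
    intro s hs
    obtain ⟨s', h6, h7⟩ := (h4.and_eventually (eventually_ge_atTop s)).exists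
    exact hF.cur_down t η x s' s h6 hs h7
  refine ⟨⟨t, _, hp, h5⟩, ?_⟩
  filter_upwards [hU, eventually_gt_atTop t] with s h6 h7
  exact Or.inr ⟨t, hp s h7, by rw [h6]; exact h5⟩

lemma R_bound {ν β : List ℕ} {s0 : ℕ} (h : ∀ s, s0 ≤ s → ¬ D.pi s ≤ ν) (hβ : β ≤ ν) (s : ℕ) :
    D.R β s ≤ s0 :=
  Data.R_le_of fun t ht _ h' => h t ht (h'.trans hβ)

/-- a stable node of odd length has an outcome that is visited infinitely often -/
lemma exists_out (hP : D.Par) (hS : D.Steps) (hF : D.Facts) (hL : D.Lim A M)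
    (hN : D.NotBelow A M) (hA : ∀ n, ∃ x, n ≤ x ∧ A x = false) {η : List ℕ}
    (hη : η.length % 2 = 1) (h1 : Stable D η) (h2 : Inf D η) : ∃ x, Inf D (η ++ [x]) := by
  by_contra hc
  push Not at hc
  have hX : ∀ x, A x = false →
      ∃ t u, Perm D t η x ∧ D.cov (η.length / 2) (pre A u) (D.pos (t + 1)) = true := by
    intro x hx
    refine (lemX hP hS hF hL (hc x) hx ?_).1
    have h3 : ∀ᶠ s in atTop, ∀ o ∈ {o | o < x + 1}, ¬ D.Vis (η ++ [o]) s :=
      (eventually_all_finite (Set.finite_lt_nat _)).2 fun o _ => not_frequently.1 (hc o)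
    refine ((child_inf h1 h2).and_eventually h3).mono fun s ⟨⟨o, ho⟩, h4⟩ => ?_
    refine (hS.vis_P s η o hη ho).2 x ?_
    by_contra h5
    exact h4 o (by simp only [Set.mem_ofPred_eq]; omega) ho
  obtain ⟨s1, hs1⟩ := eventually_atTop.1 h1
  have hR : ∀ s, s1 ≤ s → D.R η s = D.R η s1 := fun s hs =>
    (Data.R_eq hs (R_bound hs1 le_rfl s)).symm
  refine hN η (D.R η s1) (fun n => ?_) fun x => ⟨fun hx => ?_, ?_⟩
  · obtain ⟨x, h3, h4⟩ := hA n
    obtain ⟨t, u, h5, h6⟩ := hX x h4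
    have h7 := (fol_odd hS (h5 (t + 1) (by omega)).1).2
    rw [h5.eq hF hL] at h6
    exact ⟨u, hP.cov_down _ _ _ _ (pre_isPrefix M (by omega)) h6⟩
  · obtain ⟨t, u, h5, _⟩ := hX x hx
    have h6 := (h5 (max s1 (t + 1)) (by omega)).1
    refine ⟨t, ?_, h6.1, h6.2.1, h5.eq hF hL⟩
    rw [← hR _ (le_max_left s1 (t + 1))]
    exact h6.2.2.1
  · rintro ⟨t, h3, h4, h5, h6⟩
    by_contra hx
    have hx' : A x = true := by simpa using hx
    obtain ⟨s2, hs2⟩ := hL.limM (t + 1)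
    obtain ⟨s, h7, h8, h9, h10, h11⟩ := ((vis_inf hS hF).and_eventually ((a_ev hP hL x).and
      ((eventually_ge_atTop s1).and ((eventually_ge_atTop s2).and
        (eventually_gt_atTop t))))).exists
    refine (hS.vis_iff s).1 h7 ⟨t, η, x, ⟨⟨h4, h5, ?_, h11⟩, ?_⟩, Or.inl (h8.trans hx')⟩
    · rw [hR s h9]; exact h3
    · rw [h6]; exact hs2 s h10

lemma pre_of_nxt (hF : D.Facts) {s : ℕ} {v : List Bool} {c : Bool} (h : v <+: D.pos s ++ [c])
    (hl : v.length ≤ s) : v <+: D.pos s :=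
  List.prefix_of_prefix_length_le h (List.prefix_append _ _) (by rw [hF.len_pos]; exact hl)

/-- after an earlier stop at the same node a follower can be appointed -/
lemma exists_appOK (hP : D.Par) (hS : D.Steps) (hF : D.Facts) {η : List ℕ} {x s t : ℕ}
    (hv : D.Vis η s) (ht : t < s) (hx : x ≤ t) (hvt : D.Vis η t)
    (hR : D.R (η ++ [x]) s = t + 1) (hRη : D.R η s ≤ t) : ∃ w, D.AppOK η x s w := by
  classical
  have hk : D.pos (t + 1) <+: D.pos s := hR ▸ hF.k1 (η ++ [x]) s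
  by_cases hex : ∃ β : List ℕ, β.length % 2 = 0 ∧ β ++ [0] <+: η
  · let Q : ℕ → Prop := fun k => ∃ β : List ℕ, β.length = k ∧ β.length % 2 = 0 ∧ β ++ [0] <+: η
    have hle : ∀ β : List ℕ, β ++ [0] <+: η → β.length ≤ η.length := fun β h => by
      have := h.length_le
      simp at this
      omega
    obtain ⟨β0, h01, h02⟩ := hex
    obtain ⟨β, hβ0, hβ1, hβ2⟩ : Q (Nat.findGreatest Q η.length) :=
      Nat.findGreatest_spec (hle β0 h02) ⟨β0, rfl, h01, h02⟩
    have hmax : ∀ β' : List ℕ, β'.length % 2 = 0 → β' ++ [0] <+: η → β'.length ≤ β.length :=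
      fun β' h1 h2 => hβ0 ▸ Nat.le_findGreatest (hle β' h2) ⟨β', rfl, h1, h2⟩
    have hβη : β <+: η := (List.prefix_append _ _).trans hβ2
    have hc : D.Cand β s (D.sib s β) := by
      rcases hS.vis_R s β 0 hβ1 (hv.of_prefix hβ2) with h | h
      · exact h.2
      · exact absurd h.1 (by omega)
    obtain ⟨⟨c1, c2, c3, c4, c5⟩, c6⟩ := hc
    refine ⟨D.sib s β, c1, by omega, ?_, fun h => hP.not_sp (List.prefix_refl _) h c6, ?_, ?_⟩
    · rw [hR]
      exact (c5 _ ⟨t, (Data.R_prefix hβη s).trans hRη, ht, hvt.of_prefix hβ2, Or.inl rfl⟩).1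
        (hk.trans (List.prefix_append _ _))
    · intro t1 η1 y1 h1 h2 h3
      by_cases h4 : η1.length ≤ β.length
      · exact c3 t1 η1 y1 (List.prefix_of_prefix_length_le h1 hβη h4) h2 h3
      · have h5 : β ++ [0] <+: η1 :=
          List.prefix_of_prefix_length_le hβ2 h1 (by simp; omega)
        have h6 : D.InT β s (D.pos (t1 + 1)) :=
          ⟨t1, (Data.R_prefix ((List.prefix_append _ _).trans h5) s).trans h2.2.2.1, h2.2.2.2,
            (fol_vis hS h2).of_prefix (h5.trans (List.prefix_append _ _)), Or.inl rfl⟩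
        exact pre_of_nxt hF ((c5 _ h6).2 h3) (by rw [hF.len_pos]; exact h2.2.2.2)
    · intro β' h1 h2
      rcases (hmax β' h1 h2).lt_or_eq with h3 | h3
      · exact Or.inl (c2 β' h1 (List.prefix_of_prefix_length_le h2 hβη (by simp; omega)))
      · have : β' = β := (List.prefix_of_prefix_length_le ((List.prefix_append _ _).trans h2)
          hβη h3.le).eq_of_length h3
        exact Or.inr (by rw [this])
  · refine ⟨D.pos s ++ [true], by simp [hF.len_pos], by omega, ?_, fun h => ?_, ?_, ?_⟩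
    · rw [hR]; exact hk.trans (List.prefix_append _ _)
    · have := h.eq_of_length (by simp [Data.nxt])
      simp [Data.nxt] at this
    · intro t1 η1 y1 _ h2 h3
      exact pre_of_nxt hF h3 (by rw [hF.len_pos]; exact h2.2.2.2)
    · intro β h1 h2
      exact absurd ⟨β, h1, h2⟩ hex

/-- the true outcome of a node of odd length -/
lemma step_P (hP : D.Par) (hS : D.Steps) (hF : D.Facts) (hL : D.Lim A M)
    (hN : D.NotBelow A M) (hA : ∀ n, ∃ x, n ≤ x ∧ A x = false) {η : List ℕ}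
    (hη : η.length % 2 = 1) (h1 : Stable D η) (h2 : Inf D η) :
    ∃ x, Stable D (η ++ [x]) ∧ Inf D (η ++ [x]) ∧ ∃ t, Perm D t η x := by
  classical
  have hex := exists_out hP hS hF hL hN hA hη h1 h2
  obtain ⟨x, hx, hmin⟩ : ∃ x, Inf D (η ++ [x]) ∧ ∀ v, v < x → ¬ Inf D (η ++ [v]) :=
    ⟨Nat.find hex, Nat.find_spec hex, fun v hv => Nat.find_min hex hv⟩
  have hAx : A x = false := by
    obtain ⟨s, h3, h4⟩ := (hx.and_eventually (a_ev hP hL x)).exists
    by_contra h5
    exact (hS.vis_P s η x hη h3).1 (Or.inl (h4.trans (by simpa using h5)))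
  have hpass : ∀ᶠ s in atTop, ∀ v ∈ {v | v < x}, D.Passed η v s := by
    refine (eventually_all_finite (Set.finite_lt_nat _)).2 fun v hv => ?_
    cases h3 : A v with
    | true => exact (a_ev hP hL v).mono fun s hs => Or.inl (hs.trans h3)
    | false =>
      exact (lemX hP hS hF hL (hmin v hv) h3
        (hx.mono fun s hs => (hS.vis_P s η x hη hs).2 v hv)).2
  obtain ⟨s0, hs0⟩ := eventually_atTop.1 (h1.and ((left_fin hS hF h1 hmin).and
    (hpass.and (eventually_gt_atTop (η.length + 1)))))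
  have hvis : ∀ s, s0 ≤ s → D.pi s = η ++ [x] → D.vis s = true := by
    intro s hs hp
    by_contra hv
    obtain ⟨⟨η', y, hc, hb⟩, _, hp', _⟩ := hS.act_spec s hv
    obtain ⟨rfl, rfl⟩ := concat_inj (hp.symm.trans (hp'.trans hc.1.2.1))
    rcases hb with hb | ⟨v, hv1, hv2⟩
    · exact a_false hL hAx s hb
    · exact hv2 ((hs0 s hs).2.2.1 v hv1)
  have hstop : ∀ s, s0 ≤ s → D.pi s = η ++ [x] →
      (¬ ∃ t, D.Cur t η x s) ∧ (D.app s = true ∨ ∀ w, ¬ D.AppOK η x s w) := by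
    intro s hs hp
    obtain ⟨η', y, _, h4, h5⟩ := hS.stop s (hvis s hs hp)
      (by rw [hp]; simpa using (hs0 s hs).2.2.2)
    obtain ⟨rfl, rfl⟩ := concat_inj (hp.symm.trans h4)
    exact h5
  have hcur : ∃ s t, s0 ≤ s ∧ D.Cur t η x s := by
    by_contra hc
    push Not at hc
    have hpi : ∀ s, s0 ≤ s → D.Vis (η ++ [x]) s → D.pi s = η ++ [x] := by
      intro s hs hv
      by_contra hne
      obtain ⟨t, ht⟩ := hS.vis_go s η x hη hv fun e => hne e.symm
      exact hc s t hs ht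
    obtain ⟨t1, h3, h4⟩ := (hx.and_eventually (eventually_ge_atTop (max s0 x))).exists
    obtain ⟨s, h5, h6⟩ := (hx.and_eventually (eventually_gt_atTop t1)).exists
    have h7 : t1 < D.R (η ++ [x]) s := Data.lt_R h6 (le_of_eq (hpi t1 (by omega) h3))
    rcases Data.R_spec (D := D) (η ++ [x]) s with h8 | ⟨t, h8, h9, h10⟩
    · omega
    have h11 : D.pi t = η ++ [x] := (hs0 t (by omega)).2.1 h9
    have hRη : ∀ s', D.R η s' ≤ s0 := R_bound (fun s' hs' => (hs0 s' hs').1) le_rfl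
    rcases (hstop s (by omega) (hpi s (by omega) h5)).2 with h12 | h12
    · exact hc (s + 1) s (by omega) ⟨⟨h12, hpi s (by omega) h5, (hRη _).trans (by omega),
        by omega⟩, List.prefix_refl _⟩
    · obtain ⟨w, hw⟩ := exists_appOK hP hS hF (h5.of_prefix (List.prefix_append _ _)) h8
        (by omega) ⟨hvis t (by omega) h11, h11 ▸ List.prefix_append _ _⟩ h10
        ((hRη _).trans (by omega))
      exact h12 w hw
  obtain ⟨s1, t, h3, h4⟩ := hcur
  have hno : ∀ s, s0 ≤ s → D.Cur t η x s → ¬ D.pi s ≤ η ++ [x] := fun s hs hc h =>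
    (hstop s hs ((hs0 s hs).2.1 h)).1 ⟨t, hc⟩
  have hkeep : ∀ s, s1 ≤ s → D.Cur t η x s := by
    intro s hs
    induction hs with
    | refl => exact h4
    | @step m hm ih =>
      refine hF.cur_up t η x m (m + 1) ih (by omega) ?_
      rw [Data.R_succ_of_not (hno m (h3.trans hm) ih)]
      exact Data.R_le _ _
  refine ⟨x, eventually_atTop.2 ⟨s1, fun s hs => hno s (h3.trans hs) (hkeep s hs)⟩, hx, t,
    fun s hs => ?_⟩
  exact hF.cur_down t η x (max s s1) s (hkeep _ (le_max_right _ _)) hs (le_max_left _ _)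

/-- the true outcome of a node of even length -/
lemma step_R (hS : D.Steps) (hF : D.Facts) {α : List ℕ} (hα : α.length % 2 = 0)
    (h1 : Stable D α) (h2 : Inf D α) :
    (Stable D (α ++ [0]) ∧ Inf D (α ++ [0])) ∨ (Stable D (α ++ [1]) ∧ Inf D (α ++ [1])) := by
  by_cases h : Inf D (α ++ [0])
  · exact Or.inl ⟨stable_R hS hF hα h1 fun v hv => absurd hv (by omega), h⟩
  · refine Or.inr ⟨stable_R hS hF hα h1 fun v hv => ?_, ?_⟩
    · obtain rfl : v = 0 := by omega
      exact h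
    · refine ((child_inf h1 h2).and_eventually (not_frequently.1 h)).mono fun s ⟨⟨o, ho⟩, h3⟩ => ?_
      rcases hS.vis_R s α o hα ho with ⟨rfl, _⟩ | ⟨rfl, _⟩
      · exact absurd ho h3
      · exact ho

lemma extend (hP : D.Par) (hS : D.Steps) (hF : D.Facts) (hL : D.Lim A M)
    (hN : D.NotBelow A M) (hA : ∀ n, ∃ x, n ≤ x ∧ A x = false) {ν : List ℕ}
    (h1 : Stable D ν) (h2 : Inf D ν) (k : ℕ) :
    ∃ ν', ν <+: ν' ∧ ν'.length = ν.length + k ∧ Stable D ν' ∧ Inf D ν' := by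
  induction k with
  | zero => exact ⟨ν, List.prefix_refl _, rfl, h1, h2⟩
  | succ k ih =>
    obtain ⟨ν', a1, a2, a3, a4⟩ := ih
    have : ∃ o, Stable D (ν' ++ [o]) ∧ Inf D (ν' ++ [o]) := by
      rcases Nat.mod_two_eq_zero_or_one ν'.length with h | h
      · rcases step_R hS hF h a3 a4 with h' | h'
        · exact ⟨0, h'⟩
        · exact ⟨1, h'⟩
      · obtain ⟨x, b1, b2, _⟩ := step_P hP hS hF hL hN hA h a3 a4
        exact ⟨x, b1, b2⟩
    obtain ⟨o, b1, b2⟩ := this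
    exact ⟨ν' ++ [o], a1.trans (List.prefix_append _ _), by simp [a2]; omega, b1, b2⟩

lemma long_perm (hP : D.Par) (hS : D.Steps) (hF : D.Facts) (hL : D.Lim A M)
    (hN : D.NotBelow A M) (hA : ∀ n, ∃ x, n ≤ x ∧ A x = false) {ν : List ℕ}
    (h1 : Stable D ν) (h2 : Inf D ν) (n : ℕ) :
    ∃ t η y, ν <+: η ∧ n ≤ t ∧ Perm D t η y := by
  obtain ⟨η, a1, a2, a3, a4⟩ := extend hP hS hF hL hN hA h1 h2 (ν.length + 2 * n + 1)
  obtain ⟨y, _, _, t, ht⟩ := step_P hP hS hF hL hN hA (by omega) a3 a4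
  have h3 := (ht (t + 1) (by omega)).1
  have h4 := hS.vis_len t (fol_vis hS h3).1
  rw [h3.2.1] at h4
  simp at h4
  exact ⟨t, η, y, a1, by omega, ht⟩

lemma win_P (hP : D.Par) (hS : D.Steps) (hF : D.Facts) (hL : D.Lim A M) {η : List ℕ} {x t : ℕ}
    (hη : η.length % 2 = 1) (h1 : Inf D (η ++ [x])) (h2 : Perm D t η x) :
    ¬ ∀ n, ∃ u, D.cov (η.length / 2) (pre A u) (pre M n) = true := by
  intro h
  obtain ⟨u, hu⟩ := h (t + 1)
  rw [← h2.eq hF hL] at hu
  obtain ⟨t1, h3, h4⟩ := (h1.and_eventually (eventually_ge_atTop u)).exists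
  obtain ⟨s, h5, h6, h7, h8⟩ := (h1.and_eventually ((a_lim hP hL u).and
    ((eventually_gt_atTop t1).and (eventually_gt_atTop t)))).exists
  have h9 := Data.lt_U h7 h3
  refine (hS.vis_P s η x hη h5).1 (Or.inr ⟨t, h2 s h8, hP.cov_mono _ _ _ _ ?_ hu⟩)
  rw [← h6]
  exact pre_isPrefix _ (by omega)

lemma win_tree (hP : D.Par) (hS : D.Steps) (hF : D.Facts) (hL : D.Lim A M)
    (hN : D.NotBelow A M) (hA : ∀ n, ∃ x, n ≤ x ∧ A x = false) {α : List ℕ}
    (hα : α.length % 2 = 0) (h1 : Stable D (α ++ [0])) (h2 : Inf D (α ++ [0])) :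
    D.OutTree M (α.length / 2) := by
  obtain ⟨s0, hs0⟩ := eventually_atTop.1 h1
  have hR : ∀ s, D.R α s ≤ s0 := R_bound hs0 (le_of_prefix (List.prefix_append _ _))
  refine ⟨α, s0, fun s s' u v hs hs' hu hv => ?_, fun n => ?_⟩
  · exact hF.t_split α (max s s') u v hα (hu.up (le_max_left _ _) ((hR _).trans hs))
      (hv.up (le_max_right _ _) ((hR _).trans hs'))
  · obtain ⟨t, η, y, a1, a2, a3⟩ := long_perm hP hS hF hL hN hA h1 h2 n
    have a4 := (a3 (max s0 (t + 1)) (by omega)).1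
    refine ⟨max s0 (t + 1), t + 1, le_max_left _ _, by omega, t,
      (Data.R_prefix ((List.prefix_append _ _).trans a1) _).trans a4.2.2.1, by omega,
      (fol_vis hS a4).of_prefix (a1.trans (List.prefix_append _ _)), Or.inl (a3.eq hF hL).symm⟩

lemma win_flat (hP : D.Par) (hS : D.Steps) (hF : D.Facts) (hL : D.Lim A M)
    (hN : D.NotBelow A M) (hA : ∀ n, ∃ x, n ≤ x ∧ A x = false) {α : List ℕ}
    (hα : α.length % 2 = 0) (h1 : Stable D (α ++ [1])) (h2 : Inf D (α ++ [1])) :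
    D.OutFlat M (α.length / 2) := by
  obtain ⟨s0, hs0⟩ := eventually_atTop.1 h1
  have hR : ∀ β, β <+: α → ∀ s, D.R β s ≤ s0 := fun β hβ =>
    R_bound hs0 (le_of_prefix (hβ.trans (List.prefix_append _ _)))
  have hr : ∀ s, s0 ≤ s → D.R (α ++ [1]) s = D.R (α ++ [1]) s0 := fun s hs =>
    (Data.R_eq hs (R_bound hs0 le_rfl s)).symm
  have hr0 : D.R (α ++ [1]) s0 ≤ s0 := Data.R_le _ _
  have hk : ∀ s, s0 ≤ s → D.pos (D.R (α ++ [1]) s0) <+: D.pos s := fun s hs =>
    hr s hs ▸ hF.k1 (α ++ [1]) s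
  have hT : ∀ s v, s0 ≤ s → D.InT α s v → D.InT α s0 v ∧ v.length ≤ D.R (α ++ [1]) s0 := by
    rintro s v hs ⟨t, a1, a2, a3, a4⟩
    have a5 : t < D.R (α ++ [1]) s0 := by
      rw [← hr s hs]
      exact Data.lt_R a2 ((lft_concat α (by omega : 0 < 1)).mono a3.2 (List.prefix_refl _)).lt.le
    refine ⟨⟨t, (Data.R_mono α hs).trans a1, by omega, a3, a4⟩, ?_⟩
    rcases a4 with rfl | rfl
    · rw [hF.len_pos]; omega
    · rcases hS.vis_R t α 0 hα a3 with h | h
      · have := h.2.1.1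
        omega
      · exact absurd h.1 (by omega)
  have hT' : ∀ s s' v, s0 ≤ s → s0 ≤ s' → D.InT α s v → D.InT α s' v := fun s s' v hs hs' h =>
    (hT s v hs h).1.up hs' (hR α (List.prefix_refl _) _)
  have hiff : ∀ s v w w', s0 ≤ s → D.InT α s v → D.pos (D.R (α ++ [1]) s0) <+: w →
      D.pos (D.R (α ++ [1]) s0) <+: w' → v <+: w → v <+: w' := fun s v w w' hs h a1 a2 a3 =>
    (List.prefix_of_prefix_length_le a3 a1 (by rw [hF.len_pos]; exact (hT s v hs h).2)).trans a2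
  have hnx : ∀ s, s0 ≤ s → D.pos (D.R (α ++ [1]) s0) <+: D.nxt s := fun s hs =>
    (hk s hs).trans (List.prefix_append _ _)
  refine ⟨α, s0, fun t w n ht hv hw hsp => ?_, fun n => ?_⟩
  · obtain ⟨s2, hs2⟩ := hL.limM n
    obtain ⟨s, a1, a2, a3⟩ := (h2.and_eventually ((eventually_gt_atTop t).and
      (eventually_ge_atTop s2))).exists
    obtain ⟨c1, c2, c3, c4, c5⟩ := hw
    rcases hS.vis_R s α 1 hα a1 with h | h
    · exact absurd h.1 (by omega)
    refine h.2 w ⟨⟨by omega, fun β b1 b2 => ?_, ?_, fun v hv' => ?_, fun v hv' => ?_⟩, ?_⟩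
    · exact (c2 β b1 b2).up a2.le ((hR β ((List.prefix_append _ _).trans b2) s).trans ht)
    · exact hF.alive_up α t s w hα hv ((hR α (List.prefix_refl _) s).trans ht) a2 c1 c3
    · exact c4 v (hT' s t v (by omega) ht hv')
    · rw [← c5 v (hT' s t v (by omega) ht hv')]
      exact ⟨hiff s v _ _ (by omega) hv' (hnx s (by omega)) (hnx t ht),
        hiff s v _ _ (by omega) hv' (hnx t ht) (hnx s (by omega))⟩
    · exact hP.sp_mono _ _ _ _ ((hs2 s a3).trans (List.prefix_append _ _)) hsp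
  · obtain ⟨t, η, y, a1, a2, a3⟩ := long_perm hP hS hF hL hN hA h1 h2 (max n s0)
    obtain ⟨s, a4, a5⟩ := (h2.and_eventually (eventually_gt_atTop t)).exists
    have a6 := a3 s a5
    have a7 : D.Vis α t := (fol_vis hS a6.1).of_prefix
      ((List.prefix_append _ _).trans (a1.trans (List.prefix_append _ _)))
    refine ⟨s, t + 1, by omega, by omega, a4.of_prefix (List.prefix_append _ _), ?_⟩
    rw [← a3.eq hF hL]
    refine ⟨by rw [hF.len_pos]; omega, fun β b1 b2 => ?_, fun t1 η1 y1 _ _ h => h.trans a6.2,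
      fun v hv => ?_, fun v hv => ?_⟩
    · exact ⟨t, (hR β ((List.prefix_append _ _).trans b2) s).trans (by omega), a5,
        a7.of_prefix b2, Or.inl rfl⟩
    · exact hF.k2 α (t + 1) hα v (hT' s (t + 1) v (by omega) (by omega) hv)
    · exact ⟨hiff s v _ _ (by omega) hv (hnx s (by omega)) (hk (t + 1) (by omega)),
        hiff s v _ _ (by omega) hv (hk (t + 1) (by omega)) (hnx s (by omega))⟩

end Path

open Path in
theorem stPath : StPath := by
  intro D A M hP hS hF hL hN hA e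
  constructor
  · obtain ⟨η, _, a2, a3, a4⟩ :=
      extend hP hS hF hL hN hA (root_stable hS) (root_inf hS hF) (2 * e + 1)
    have hl : η.length = 2 * e + 1 := by simpa using a2
    obtain ⟨x, _, b2, t, ht⟩ := step_P hP hS hF hL hN hA (by omega) a3 a4
    have := win_P hP hS hF hL (by omega) b2 ht
    rwa [show η.length / 2 = e by omega] at this
  · obtain ⟨α, _, a2, a3, a4⟩ :=
      extend hP hS hF hL hN hA (root_stable hS) (root_inf hS hF) (2 * e)
    have hl : α.length = 2 * e := by simpa using a2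
    rw [← show α.length / 2 = e by omega]
    rcases step_R hS hF (by omega) a3 a4 with h | h
    · exact Or.inl (win_tree hP hS hF hL hN hA (by omega) h.1 h.2)
    · exact Or.inr (win_flat hP hS hF hL hN hA (by omega) h.1 h.2)

end Pool.Agent.MP_68d28f_lc.CE.Meet
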