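import Pool.Agent.MP_68d28f_lc.ce.t1.Spec

/-!
Block T1, part IMPL, first half: boolean versions of the predicates of a stage. They are
evaluated on data that agree with the run before the stage.
-/

namespace Pool.Agent.MP_68d28f_lc.CE.Meet

open Pool.Agent.MP_b427ce_lc

/-- boolean test for initial segments -/
def pfB {δ : Type} [DecidableEq δ] (a b : List δ) : Bool := eqB (b.take a.length) a

@[simp] lemma pfB_iff {δ : Type} [DecidableEq δ] {a b : List δ} : pfB a b = true ↔ a <+: b := by
  rw [pfB, eqB_iff, List.prefix_iff_eq_take, eq_comm]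

lemma eqB_pfB {a b c d : List Bool} :
    eqB (pfB a b) (pfB c d) = true ↔ (a <+: b ↔ c <+: d) := by
  rw [eqB_iff, Bool.eq_iff_iff, pfB_iff, pfB_iff]

/-- the list without its last entry -/
def ini (l : List ℕ) : List ℕ := l.take (l.length - 1)

/-- the last entry -/
def lst (l : List ℕ) : ℕ := l.getD (l.length - 1) 0

@[simp] lemma ini_concat (l : List ℕ) (y : ℕ) : ini (l ++ [y]) = l := by simp [ini]

@[simp] lemma lst_concat (l : List ℕ) (y : ℕ) : lst (l ++ [y]) = y := by simp [lst]

/-- the even initial segments followed by zero -/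
def evL (ν : List ℕ) : List (List ℕ) :=
  ((List.range (ν.length + 1)).map fun d => ν.take d).filter fun β =>
    eqB (β.length % 2) 0 && pfB (β ++ [0]) ν

lemma mem_evL {β ν : List ℕ} : β ∈ evL ν ↔ β.length % 2 = 0 ∧ β ++ [0] <+: ν := by
  simp only [evL, List.mem_filter, List.mem_map, List.mem_range, Bool.and_eq_true, eqB_iff,
    pfB_iff]
  refine ⟨fun h => h.2, fun h => ⟨⟨β.length, ?_, ?_⟩, h⟩⟩
  · have := h.2.length_le
    simp only [List.length_append, List.length_singleton] at this
    omega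
  · exact (List.prefix_iff_eq_take.1 ((List.prefix_append _ _).trans h.2)).symm

/-- all strings of bounded length -/
def strs (n : ℕ) : List (List Bool) :=
  (List.range (n + 1)).flatMap fun k => (allLists 2 k).map fun l => l.map fun i => eqB i 1

lemma mem_strs {n : ℕ} {w : List Bool} (h : w.length ≤ n) : w ∈ strs n := by
  simp only [strs, List.mem_flatMap, List.mem_range, List.mem_map, mem_allLists]
  refine ⟨w.length, by omega, w.map Bool.toNat, ⟨by simp, ?_⟩, ?_⟩
  · intro x hx
    obtain ⟨b, -, rfl⟩ := List.mem_map.1 hx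
    cases b <;> simp
  · rw [List.map_map]
    conv_rhs => rw [← List.map_id w]
    exact List.map_congr_left fun b _ => by cases b <;> rfl

/-- the first string of bounded length with a property -/
def fstr (n : ℕ) (p : List Bool → Bool) : List Bool := ((strs n).find? p).getD []

lemma fstr_spec {n : ℕ} {p : List Bool → Bool} (h : (strs n).any p = true) :
    p (fstr n p) = true := by
  unfold fstr
  cases hf : (strs n).find? p with
  | none =>
    obtain ⟨x, hx, hp⟩ := List.any_eq_true.1 h
    exact absurd hp (List.find?_eq_none.1 hf x hx)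
  | some v => exact List.find?_some hf

/-- the least number below a bound with a property -/
def least (n : ℕ) (p : ℕ → Bool) : ℕ := ((List.range n).find? p).getD 0

lemma least_spec {n i : ℕ} {p : ℕ → Bool} (hi : i < n) (h : p i = true) :
    p (least n p) = true ∧ least n p < n ∧ ∀ j, j < least n p → ¬ p j = true := by
  unfold least
  cases hf : (List.range n).find? p with
  | none => exact absurd h (List.find?_eq_none.1 hf i (List.mem_range.2 hi))
  | some v =>
    obtain ⟨h1, h2, h3⟩ := List.find?_range_eq_some.1 hf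
    exact ⟨h1, List.mem_range.1 h2, fun j hj => by simpa using h3 j hj⟩

/-- two data agree before a stage -/
structure Ag (E D : Data) (s : ℕ) : Prop where
  a : E.a = D.a
  sp : E.sp = D.sp
  cov : E.cov = D.cov
  vis : ∀ t, t < s → E.vis t = D.vis t
  pi : ∀ t, t < s → E.pi t = D.pi t
  pos : ∀ t, t ≤ s → E.pos t = D.pos t
  sib : ∀ t, t < s → E.sib t = D.sib t
  app : ∀ t, t < s → E.app t = D.app t
  alt : ∀ t, t < s → E.alt t = D.alt t

section defs
variable (E : Data)

/-- the list of the strings on the tree -/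
def tL (α : List ℕ) (s : ℕ) : List (List Bool) :=
  ((List.range s).filter fun t => leB (E.R α s) t && (E.vis t && pfB (α ++ [0]) (E.pi t))).flatMap
    fun t => [E.pos (t + 1), E.sib t α]

/-- boolean `Fol` -/
def folB (t : ℕ) (η : List ℕ) (y s : ℕ) : Bool :=
  leB (t + 1) s && (E.app t && (eqB (E.pi t) (η ++ [y]) && leB (E.R η s) t))

/-- boolean `Cur` -/
def curB (t : ℕ) (η : List ℕ) (y s : ℕ) : Bool :=
  folB E t η y s && pfB (E.pos (t + 1)) (E.pos s)

/-- boolean `Passed` -/
def passB (η : List ℕ) (x s : ℕ) : Bool :=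
  E.a s x || (List.range s).any fun t => curB E t η x s &&
    E.cov (η.length / 2) (pre (E.a s) (E.U (η ++ [x]) s)) (E.pos (t + 1))

/-- boolean `Bad` -/
def badB (t s : ℕ) : Bool :=
  curB E t (ini (E.pi t)) (lst (E.pi t)) s &&
    (E.a s (lst (E.pi t)) || (List.range (lst (E.pi t))).any fun x => !passB E (ini (E.pi t)) x s)

/-- boolean `Alive` -/
def aliveB (ν : List ℕ) (s : ℕ) (w : List Bool) : Bool :=
  (List.range s).all fun t => !(pfB (ini (E.pi t)) ν &&
    (folB E t (ini (E.pi t)) (lst (E.pi t)) s && pfB (E.pos (t + 1)) w)) ||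
      pfB (E.pos (t + 1)) (E.pos s)

/-- boolean `OK` -/
def okB (α : List ℕ) (s : ℕ) (w : List Bool) : Bool :=
  (tL E α s).all fun v => pfB v w || E.sp (α.length / 2) v w

/-- boolean `Base` -/
def baseB (ν : List ℕ) (s : ℕ) (w : List Bool) : Bool :=
  (evL ν).all fun β => memB w (tL E β s)

/-- boolean `PreCand` -/
def preCB (α : List ℕ) (s : ℕ) (w : List Bool) : Bool :=
  leB w.length (s + 1) && (baseB E α s w && (aliveB E α s w && (okB E α s w &&
    (tL E α s).all fun v => eqB (pfB v (E.pos s ++ [false])) (pfB v w))))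

/-- boolean `Cand` -/
def candB (α : List ℕ) (s : ℕ) (w : List Bool) : Bool :=
  preCB E α s w && E.sp (α.length / 2) (E.pos s ++ [false]) w

/-- the sibling that a node picks -/
def fc (α : List ℕ) (s : ℕ) : List Bool := fstr (s + 1) fun w => candB E α s w

/-- boolean `AppOK` -/
def appB (η : List ℕ) (x s : ℕ) (w : List Bool) : Bool :=
  leB w.length (s + 1) && (leB (x + 1) (E.R (η ++ [x]) s) && (pfB (E.pos (E.R (η ++ [x]) s)) w &&
    (!pfB w (E.pos s ++ [false]) && (aliveB E η s w &&
      (evL η).all fun β => memB w (tL E β s) || eqB w (fc E β s)))))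

/-- boolean `Good` -/
def goodB (t s : ℕ) (w : List Bool) : Bool :=
  eqB w.length (s + 1) && (pfB (E.alt t) w && (!eqB (E.pi t) (ini (E.pi t) ++ [lst (E.pi t)]) ||
    (aliveB E (ini (E.pi t)) s w && (evL (ini (E.pi t))).all fun β => okB E β s w)))

end defs

namespace Ag
variable {E D : Data} {s : ℕ} (h : Ag E D s)
include h

lemma R_eq (ν : List ℕ) : ∀ k, k ≤ s → E.R ν k = D.R ν k
  | 0, _ => rfl
  | k + 1, hk => by rw [Data.R, Data.R, h.pi k hk, R_eq ν k (by omega)]

lemma U_eq (ν : List ℕ) : ∀ k, k ≤ s → E.U ν k = D.U ν k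
  | 0, _ => rfl
  | k + 1, hk => by rw [Data.U, Data.U, h.pi k hk, h.vis k hk, U_eq ν k (by omega)]

lemma mem_tL {α : List ℕ} {w : List Bool} : w ∈ tL E α s ↔ D.InT α s w := by
  simp only [tL, List.mem_flatMap, List.mem_filter, List.mem_range, Bool.and_eq_true, leB_iff,
    pfB_iff, List.mem_cons, List.not_mem_nil, or_false, h.R_eq α s le_rfl, Data.InT, Data.Vis]
  refine exists_congr fun t => ⟨?_, ?_⟩
  · rintro ⟨⟨h1, h2, h3⟩, h4⟩
    rw [h.vis t h1, h.pi t h1] at h3
    rw [h.pos _ h1, h.sib t h1] at h4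
    exact ⟨h2, h1, h3, h4⟩
  · rintro ⟨h2, h1, h3, h4⟩
    rw [h.vis t h1, h.pi t h1, h.pos _ h1, h.sib t h1]
    exact ⟨⟨h1, h2, h3⟩, h4⟩

lemma fol {t y : ℕ} {η : List ℕ} : folB E t η y s = true ↔ D.Fol t η y s := by
  simp only [folB, Bool.and_eq_true, leB_iff, eqB_iff, h.R_eq η s le_rfl, Data.Fol]
  constructor
  · rintro ⟨h1, h2⟩
    rw [h.app t h1, h.pi t h1] at h2
    exact ⟨h2.1, h2.2.1, h2.2.2, h1⟩
  · rintro ⟨h2, h3, h4, h1⟩
    rw [h.app t h1, h.pi t h1]
    exact ⟨h1, h2, h3, h4⟩

lemma cur {t y : ℕ} {η : List ℕ} : curB E t η y s = true ↔ D.Cur t η y s := by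
  simp only [curB, Bool.and_eq_true, h.fol, pfB_iff, Data.Cur, h.pos s le_rfl]
  exact and_congr_right fun hf => by rw [h.pos _ hf.2.2.2]

lemma anyCur {y : ℕ} {η : List ℕ} :
    ((List.range s).any fun t => curB E t η y s) = true ↔ ∃ t, D.Cur t η y s := by
  simp only [List.any_eq_true, List.mem_range, h.cur]
  exact exists_congr fun t => ⟨fun a => a.2, fun a => ⟨a.1.2.2.2, a⟩⟩

lemma pass {x : ℕ} {η : List ℕ} : passB E η x s = true ↔ D.Passed η x s := by
  simp only [passB, Bool.or_eq_true, List.any_eq_true, List.mem_range, Bool.and_eq_true, h.cur,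
    Data.Passed, h.a, h.cov, h.U_eq _ s le_rfl]
  refine or_congr Iff.rfl (exists_congr fun t => ⟨?_, ?_⟩)
  · rintro ⟨h1, h2⟩
    rwa [h.pos _ h1] at h2
  · rintro ⟨h1, h2⟩
    rw [h.pos _ h1.1.2.2.2]
    exact ⟨h1.1.2.2.2, h1, h2⟩

lemma bad {t : ℕ} : badB E t s = true ↔ D.Bad t s := by
  simp only [badB, Bool.and_eq_true, h.cur, Bool.or_eq_true, List.any_eq_true, List.mem_range,
    Bool.not_eq_true', ← Bool.not_eq_true, h.pass, h.a, Data.Bad]
  refine ⟨fun a => ⟨_, _, a⟩, ?_⟩
  rintro ⟨η, y, h1, h2⟩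
  rw [h.pi t h1.1.2.2.2, h1.1.2.1, ini_concat, lst_concat]
  exact ⟨h1, h2⟩

lemma alive {ν : List ℕ} {w : List Bool} : aliveB E ν s w = true ↔ D.Alive ν s w := by
  simp only [aliveB, List.all_eq_true, List.mem_range, Bool.or_eq_true, Bool.not_eq_true',
    ← Bool.not_eq_true, Bool.and_eq_true, pfB_iff, h.fol, h.pos s le_rfl, Data.Alive]
  constructor
  · intro a t η y h1 h2 h3
    have := a t h2.2.2.2
    rw [h.pi t h2.2.2.2, h.pos _ h2.2.2.2, h2.2.1, ini_concat, lst_concat] at this
    exact this.resolve_left fun b => b ⟨h1, h2, h3⟩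
  · intro a t ht
    rw [h.pos _ ht]
    exact or_iff_not_imp_left.2 fun b => a t _ _ (not_not.1 b).1 (not_not.1 b).2.1 (not_not.1 b).2.2

lemma ok {α : List ℕ} {w : List Bool} : okB E α s w = true ↔ D.OK α s w := by
  simp only [okB, List.all_eq_true, h.mem_tL, Bool.or_eq_true, pfB_iff, h.sp, Data.OK]

lemma base {ν : List ℕ} {w : List Bool} : baseB E ν s w = true ↔ D.Base ν s w := by
  simp only [baseB, List.all_eq_true, mem_evL, memB_iff, h.mem_tL, Data.Base, and_imp]

lemma preC {α : List ℕ} {w : List Bool} : preCB E α s w = true ↔ D.PreCand α s w := by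
  simp only [preCB, Bool.and_eq_true, leB_iff, h.base, h.alive, h.ok, List.all_eq_true, h.mem_tL,
    eqB_pfB, h.pos s le_rfl, Data.PreCand, Data.nxt]

lemma cand {α : List ℕ} {w : List Bool} : candB E α s w = true ↔ D.Cand α s w := by
  simp only [candB, Bool.and_eq_true, h.preC, h.sp, h.pos s le_rfl, Data.Cand, Data.nxt]

lemma appOK {η : List ℕ} {x : ℕ} {w : List Bool}
    (hs : ∀ β, β ++ [0] <+: η → D.sib s β = fc E β s) :
    appB E η x s w = true ↔ D.AppOK η x s w := by
  simp only [appB, Bool.and_eq_true, leB_iff, pfB_iff, Bool.not_eq_true', ← Bool.not_eq_true,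
    h.alive, List.all_eq_true, mem_evL, Bool.or_eq_true, memB_iff, h.mem_tL, eqB_iff,
    h.R_eq _ s le_rfl, h.pos _ (Data.R_le _ s), h.pos s le_rfl, Data.AppOK, Data.nxt, and_imp,
    Nat.succ_le_iff]
  refine and_congr_right fun _ => and_congr_right fun _ => and_congr_right fun _ =>
    and_congr_right fun _ => and_congr_right fun _ => forall_congr' fun β =>
    forall_congr' fun _ => forall_congr' fun hb => by rw [hs β hb]

lemma good {t : ℕ} {w : List Bool} (ht : t < s) : goodB E t s w = true ↔ D.Good t s w := by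
  simp only [goodB, Bool.and_eq_true, eqB_iff, pfB_iff, Bool.or_eq_true, Bool.not_eq_true',
    ← Bool.not_eq_true, h.alive, List.all_eq_true, mem_evL, h.ok, h.alt t ht, h.pi t ht,
    Data.Good, and_imp]
  refine and_congr_right fun _ => and_congr_right fun _ => ⟨?_, fun a => ?_⟩
  · intro a η y hp
    rw [hp, ini_concat, lst_concat] at a
    exact a.resolve_left fun b => b rfl
  · exact or_iff_not_imp_left.2 fun b => a _ _ (not_not.1 b)

end Ag

end Pool.Agent.MP_68d28f_lc.CE.Meet
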