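import Pool.Agent.MP_68d28f_lc.ce.t1.ImplA

/-!
Block T1, part IMPL, second half: one stage as a function of the history, and its computability.
-/

namespace Pool.Agent.MP_68d28f_lc.CE.Meet

open Pool.Agent.MP_b427ce_lc

section stage
variable (E : Data)

/-- the stage is a visit -/
def visN (s : ℕ) : Bool := !(List.range s).any fun t => badB E t s

/-- the follower that acts -/
def actN (s : ℕ) : ℕ := least s fun t => badB E t s

/-- the outcome of a node -/
def chN (ν : List ℕ) (s : ℕ) : ℕ :=
  cond (eqB (ν.length % 2) 0) (cond ((strs (s + 1)).any fun w => candB E ν s w) 0 1)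
    (least (s + 1) fun x => !passB E ν x s)

/-- the walk stops at the node -/
def stopB (ν : List ℕ) (s : ℕ) : Bool :=
  eqB ((ini ν).length % 2) 1 && (eqB ν (ini ν ++ [lst ν]) &&
    !(List.range s).any fun t => curB E t (ini ν) (lst ν) s)

/-- the walk -/
def walk (s n : ℕ) : List ℕ :=
  natIter [] (fun _ ν => cond (stopB E ν s) ν (ν ++ [chN E ν s])) n

/-- the node of the stage -/
def piN (s : ℕ) : List ℕ := cond (visN E s) (walk E s s) (E.pi (actN E s))

/-- the position after the stage -/
def posN (s : ℕ) : List Bool :=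
  cond (visN E s) (E.pos s ++ [false]) (fstr (s + 1) fun w => goodB E (actN E s) s w)

/-- the siblings along the node of the stage -/
def sibN (s : ℕ) : List (List Bool) :=
  pre (fun d => fc E ((piN E s).take d) s) (piN E s).length

/-- the stage appoints a follower -/
def appN (s : ℕ) : Bool :=
  visN E s && (stopB E (piN E s) s &&
    (strs (s + 1)).any fun w => appB E (ini (piN E s)) (lst (piN E s)) s w)

/-- the other side of the new follower -/
def altN (s : ℕ) : List Bool :=
  fstr (s + 1) fun w => appB E (ini (piN E s)) (lst (piN E s)) s w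

end stage

/-- the record of a stage -/
abbrev Ev := (Bool × List ℕ × List Bool) × List (List Bool) × Bool × List Bool × ℕ

/-- one stage -/
def stepN (E : Data) (s : ℕ) : Ev :=
  ((visN E s, piN E s, posN E s), sibN E s, appN E s, altN E s, actN E s)

/-- the data with the parameters of `P` and the given records -/
def mkD (P : Data) (e : ℕ → Ev) : Data where
  a := P.a
  sp := P.sp
  cov := P.cov
  vis s := (e s).1.1
  pi s := (e s).1.2.1
  pos s := cond (eqB s 0) [] (e (s - 1)).1.2.2
  sib s α := (e s).2.1.getD α.length []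
  app s := (e s).2.2.1
  alt s := (e s).2.2.2.1
  act s := (e s).2.2.2.2

/-- a default record -/
def ev0 : Ev := ((true, [], []), [], false, [], 0)

/-- the data of a finite history -/
def dH (P : Data) (H : List Ev) : Data := mkD P fun t => H.getD t ev0

/-- the parameters are computable in the oracles -/
class PC (O : Set (ℕ →. ℕ)) (P : Data) : Prop where
  a : ComputableIn O (fun p : ℕ × ℕ => P.a p.1 p.2)
  sp : ComputableIn O (fun p : ℕ × List Bool × List Bool => P.sp p.1 p.2.1 p.2.2)
  cov : ComputableIn O (fun p : ℕ × List Bool × List Bool => P.cov p.1 p.2.1 p.2.2)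

section comp
variable {α : Type} [Primcodable α] {O : Set (ℕ →. ℕ)}

@[fun_prop] lemma c_pfB {δ : Type} [Primcodable δ] [DecidableEq δ] {f g : α → List δ}
    (hf : ComputableIn O f) (hg : ComputableIn O g) :
    ComputableIn O fun a => pfB (f a) (g a) := by
  unfold pfB; fun_prop

@[fun_prop] lemma c_ini {f : α → List ℕ} (hf : ComputableIn O f) :
    ComputableIn O fun a => ini (f a) := by
  unfold ini; fun_prop

@[fun_prop] lemma c_lst {f : α → List ℕ} (hf : ComputableIn O f) :
    ComputableIn O fun a => lst (f a) := by
  unfold lst; fun_prop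

@[fun_prop] lemma c_evL {f : α → List ℕ} (hf : ComputableIn O f) :
    ComputableIn O fun a => evL (f a) := by
  unfold evL; fun_prop

@[fun_prop] lemma c_strs {f : α → ℕ} (hf : ComputableIn O f) :
    ComputableIn O fun a => strs (f a) := by
  unfold strs; fun_prop

@[fun_prop] lemma c_fstr {f : α → ℕ} {p : α → List Bool → Bool} (hf : ComputableIn O f)
    (hp : ComputableIn O fun q : α × List Bool => p q.1 q.2) :
    ComputableIn O fun a => fstr (f a) (p a) := by
  unfold fstr; fun_prop

@[fun_prop] lemma c_least {f : α → ℕ} {p : α → ℕ → Bool} (hf : ComputableIn O f)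
    (hp : ComputableIn O fun q : α × ℕ => p q.1 q.2) :
    ComputableIn O fun a => least (f a) (p a) := by
  unfold least; fun_prop

variable {P : Data} {H : α → List Ev} {s t x : α → ℕ} {ν : α → List ℕ} {v w : α → List Bool}

@[fun_prop] lemma c_vis (hH : ComputableIn O H) (ht : ComputableIn O t) :
    ComputableIn O fun a => (dH P (H a)).vis (t a) := by
  show ComputableIn O fun a => ((H a).getD (t a) ev0).1.1
  fun_prop

@[fun_prop] lemma c_pi (hH : ComputableIn O H) (ht : ComputableIn O t) :
    ComputableIn O fun a => (dH P (H a)).pi (t a) := by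
  show ComputableIn O fun a => ((H a).getD (t a) ev0).1.2.1
  fun_prop

@[fun_prop] lemma c_pos (hH : ComputableIn O H) (ht : ComputableIn O t) :
    ComputableIn O fun a => (dH P (H a)).pos (t a) := by
  show ComputableIn O fun a => cond (eqB (t a) 0) [] ((H a).getD (t a - 1) ev0).1.2.2
  fun_prop

@[fun_prop] lemma c_sib (hH : ComputableIn O H) (ht : ComputableIn O t)
    (hν : ComputableIn O ν) : ComputableIn O fun a => (dH P (H a)).sib (t a) (ν a) := by
  show ComputableIn O fun a => ((H a).getD (t a) ev0).2.1.getD (ν a).length []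
  fun_prop

@[fun_prop] lemma c_app (hH : ComputableIn O H) (ht : ComputableIn O t) :
    ComputableIn O fun a => (dH P (H a)).app (t a) := by
  show ComputableIn O fun a => ((H a).getD (t a) ev0).2.2.1
  fun_prop

@[fun_prop] lemma c_alt (hH : ComputableIn O H) (ht : ComputableIn O t) :
    ComputableIn O fun a => (dH P (H a)).alt (t a) := by
  show ComputableIn O fun a => ((H a).getD (t a) ev0).2.2.2.1
  fun_prop

@[fun_prop] lemma c_a [hP : PC O P] (hs : ComputableIn O s) (hx : ComputableIn O x) :
    ComputableIn O fun a => P.a (s a) (x a) :=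
  c_comp hP.a (c_pair hs hx)

@[fun_prop] lemma c_sp [hP : PC O P] (hx : ComputableIn O x) (hv : ComputableIn O v)
    (hw : ComputableIn O w) :
    ComputableIn O fun a => P.sp (x a) (v a) (w a) :=
  c_comp hP.sp (c_pair hx (c_pair hv hw))

@[fun_prop] lemma c_cov [hP : PC O P] (hx : ComputableIn O x) (hv : ComputableIn O v)
    (hw : ComputableIn O w) :
    ComputableIn O fun a => P.cov (x a) (v a) (w a) :=
  c_comp hP.cov (c_pair hx (c_pair hv hw))

lemma dH_a (P : Data) (H : List Ev) : (dH P H).a = P.a := rfl

lemma dH_sp (P : Data) (H : List Ev) : (dH P H).sp = P.sp := rfl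

lemma dH_cov (P : Data) (H : List Ev) : (dH P H).cov = P.cov := rfl

lemma R_iter (E : Data) (ν : List ℕ) (s : ℕ) :
    natIter 0 (fun t r => cond (ltB ν (E.pi t)) r (t + 1)) s = E.R ν s := by
  induction s with
  | zero => rfl
  | succ s ih =>
    rw [natIter, ih, Data.R]
    by_cases h : E.pi s ≤ ν
    · rw [if_pos h, Bool.eq_false_iff.2 fun b => absurd (ltB_iff.1 b) (not_lt.2 h)]; rfl
    · rw [if_neg h, ltB_iff.2 (not_le.1 h)]; rfl

lemma U_iter (E : Data) (ν : List ℕ) (s : ℕ) :
    natIter 0 (fun t r => cond (E.vis t && pfB ν (E.pi t)) (t + 1) r) s = E.U ν s := by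
  induction s with
  | zero => rfl
  | succ s ih =>
    rw [natIter, ih, Data.U]
    by_cases h : E.vis s = true ∧ ν <+: E.pi s
    · rw [if_pos h, h.1, pfB_iff.2 h.2]; rfl
    · have e : (E.vis s && pfB ν (E.pi s)) = false :=
        Bool.eq_false_iff.2 fun b => h (by simpa using b)
      rw [if_neg h, e]; rfl

@[fun_prop] lemma c_R (hH : ComputableIn O H) (hν : ComputableIn O ν) (hs : ComputableIn O s) :
    ComputableIn O fun a => (dH P (H a)).R (ν a) (s a) :=
  cin_of_eq (f := fun a => natIter 0
    (fun t r => cond (ltB (ν a) ((dH P (H a)).pi t)) r (t + 1)) (s a)) (by fun_prop)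
    fun _ => R_iter _ _ _

@[fun_prop] lemma c_U (hH : ComputableIn O H) (hν : ComputableIn O ν) (hs : ComputableIn O s) :
    ComputableIn O fun a => (dH P (H a)).U (ν a) (s a) :=
  cin_of_eq (f := fun a => natIter 0
    (fun t r => cond ((dH P (H a)).vis t && pfB (ν a) ((dH P (H a)).pi t)) (t + 1) r) (s a))
    (by fun_prop) fun _ => U_iter _ _ _

@[fun_prop] lemma c_tL (hH : ComputableIn O H) (hν : ComputableIn O ν) (hs : ComputableIn O s) :
    ComputableIn O fun a => tL (dH P (H a)) (ν a) (s a) := by
  unfold tL; fun_prop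

@[fun_prop] lemma c_folB (hH : ComputableIn O H) (ht : ComputableIn O t)
    (hν : ComputableIn O ν) (hx : ComputableIn O x) (hs : ComputableIn O s) :
    ComputableIn O fun a => folB (dH P (H a)) (t a) (ν a) (x a) (s a) := by
  unfold folB; fun_prop

@[fun_prop] lemma c_curB (hH : ComputableIn O H) (ht : ComputableIn O t)
    (hν : ComputableIn O ν) (hx : ComputableIn O x) (hs : ComputableIn O s) :
    ComputableIn O fun a => curB (dH P (H a)) (t a) (ν a) (x a) (s a) := by
  unfold curB; fun_prop

@[fun_prop] lemma c_aliveB (hH : ComputableIn O H) (hν : ComputableIn O ν)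
    (hs : ComputableIn O s) (hw : ComputableIn O w) :
    ComputableIn O fun a => aliveB (dH P (H a)) (ν a) (s a) (w a) := by
  unfold aliveB; fun_prop

@[fun_prop] lemma c_baseB (hH : ComputableIn O H) (hν : ComputableIn O ν)
    (hs : ComputableIn O s) (hw : ComputableIn O w) :
    ComputableIn O fun a => baseB (dH P (H a)) (ν a) (s a) (w a) := by
  unfold baseB; fun_prop

@[fun_prop] lemma c_stopB (hH : ComputableIn O H) (hν : ComputableIn O ν)
    (hs : ComputableIn O s) : ComputableIn O fun a => stopB (dH P (H a)) (ν a) (s a) := by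
  unfold stopB; fun_prop

variable [hP : PC O P]

@[fun_prop] lemma c_passB (hH : ComputableIn O H) (hν : ComputableIn O ν)
    (hx : ComputableIn O x) (hs : ComputableIn O s) :
    ComputableIn O fun a => passB (dH P (H a)) (ν a) (x a) (s a) := by
  unfold passB; simp only [dH_a, dH_cov]; fun_prop

@[fun_prop] lemma c_badB (hH : ComputableIn O H) (ht : ComputableIn O t)
    (hs : ComputableIn O s) : ComputableIn O fun a => badB (dH P (H a)) (t a) (s a) := by
  unfold badB; simp only [dH_a]; fun_prop

@[fun_prop] lemma c_okB (hH : ComputableIn O H) (hν : ComputableIn O ν)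
    (hs : ComputableIn O s) (hw : ComputableIn O w) :
    ComputableIn O fun a => okB (dH P (H a)) (ν a) (s a) (w a) := by
  unfold okB; simp only [dH_sp]; fun_prop

@[fun_prop] lemma c_preCB (hH : ComputableIn O H) (hν : ComputableIn O ν)
    (hs : ComputableIn O s) (hw : ComputableIn O w) :
    ComputableIn O fun a => preCB (dH P (H a)) (ν a) (s a) (w a) := by
  unfold preCB; fun_prop

@[fun_prop] lemma c_candB (hH : ComputableIn O H) (hν : ComputableIn O ν)
    (hs : ComputableIn O s) (hw : ComputableIn O w) :
    ComputableIn O fun a => candB (dH P (H a)) (ν a) (s a) (w a) := by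
  unfold candB; simp only [dH_sp]; fun_prop

@[fun_prop] lemma c_fc (hH : ComputableIn O H) (hν : ComputableIn O ν)
    (hs : ComputableIn O s) : ComputableIn O fun a => fc (dH P (H a)) (ν a) (s a) := by
  unfold fc; fun_prop

@[fun_prop] lemma c_appB (hH : ComputableIn O H) (hν : ComputableIn O ν)
    (hx : ComputableIn O x) (hs : ComputableIn O s) (hw : ComputableIn O w) :
    ComputableIn O fun a => appB (dH P (H a)) (ν a) (x a) (s a) (w a) := by
  unfold appB; fun_prop

@[fun_prop] lemma c_goodB (hH : ComputableIn O H) (ht : ComputableIn O t)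
    (hs : ComputableIn O s) (hw : ComputableIn O w) :
    ComputableIn O fun a => goodB (dH P (H a)) (t a) (s a) (w a) := by
  unfold goodB; fun_prop

@[fun_prop] lemma c_visN (hH : ComputableIn O H) (hs : ComputableIn O s) :
    ComputableIn O fun a => visN (dH P (H a)) (s a) := by
  unfold visN; fun_prop

@[fun_prop] lemma c_actN (hH : ComputableIn O H) (hs : ComputableIn O s) :
    ComputableIn O fun a => actN (dH P (H a)) (s a) := by
  unfold actN; fun_prop

@[fun_prop] lemma c_chN (hH : ComputableIn O H) (hν : ComputableIn O ν)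
    (hs : ComputableIn O s) : ComputableIn O fun a => chN (dH P (H a)) (ν a) (s a) := by
  unfold chN; fun_prop

@[fun_prop] lemma c_walk (hH : ComputableIn O H) (hs : ComputableIn O s)
    (hx : ComputableIn O x) : ComputableIn O fun a => walk (dH P (H a)) (s a) (x a) := by
  unfold walk; fun_prop

@[fun_prop] lemma c_piN (hH : ComputableIn O H) (hs : ComputableIn O s) :
    ComputableIn O fun a => piN (dH P (H a)) (s a) := by
  unfold piN; fun_prop

@[fun_prop] lemma c_posN (hH : ComputableIn O H) (hs : ComputableIn O s) :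
    ComputableIn O fun a => posN (dH P (H a)) (s a) := by
  unfold posN; fun_prop

@[fun_prop] lemma c_sibN (hH : ComputableIn O H) (hs : ComputableIn O s) :
    ComputableIn O fun a => sibN (dH P (H a)) (s a) := by
  unfold sibN; fun_prop

@[fun_prop] lemma c_appN (hH : ComputableIn O H) (hs : ComputableIn O s) :
    ComputableIn O fun a => appN (dH P (H a)) (s a) := by
  unfold appN; fun_prop

@[fun_prop] lemma c_altN (hH : ComputableIn O H) (hs : ComputableIn O s) :
    ComputableIn O fun a => altN (dH P (H a)) (s a) := by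
  unfold altN; fun_prop

@[fun_prop] lemma c_stepN (hH : ComputableIn O H) (hs : ComputableIn O s) :
    ComputableIn O fun a => stepN (dH P (H a)) (s a) := by
  unfold stepN; fun_prop

end comp

end Pool.Agent.MP_68d28f_lc.CE.Meet
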