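import Pool.Agent.MP_68d28f_lc.ce.t1.Spec

/-! Block T1: the invariants of the construction. -/

namespace Pool.Agent.MP_68d28f_lc.CE.Meet

open Pool.Agent.MP_b427ce_lc

namespace Data

/-- the invariants up to stage `n` -/
structure Inv (D : Data) (n : ℕ) : Prop where
  len : ∀ s, s ≤ n → (D.pos s).length = s
  k1 : ∀ ν s, s ≤ n → D.pos (D.R ν s) <+: D.pos s
  k2 : ∀ α s, s ≤ n → α.length % 2 = 0 → D.OK α s (D.pos s)
  k3 : ∀ t η y s, s + 1 ≤ n → t < s → D.Cur t η y (s + 1) → D.Cur t η y s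
  good : ∀ s, s + 1 ≤ n → ¬ D.vis s = true → D.Good (D.act s) s (D.pos (s + 1))

variable {D : Data} {n : ℕ}

lemma cat_inj {η η' : List ℕ} {y y' : ℕ} (h : η ++ [y] = η' ++ [y']) : η = η' ∧ y = y' := by
  simpa using List.append_inj' h rfl

lemma cat_pre_cat {η : List ℕ} {x y : ℕ} (h : η ++ [x] <+: η ++ [y]) : x = y :=
  concat_prefix_unique h (List.prefix_refl _)

lemma pre_of_len {u v w : List Bool} (h1 : u <+: w) (h2 : v <+: w) (h : u.length ≤ v.length) :
    u <+: v := List.prefix_of_prefix_length_le h1 h2 h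

lemma pos_nxt (s : ℕ) : D.pos s <+: D.nxt s := List.prefix_append _ _

lemma Steps.fol (hS : D.Steps) {t y s : ℕ} {η : List ℕ} (h : D.Fol t η y s) :
    η.length % 2 = 1 ∧ D.vis t = true ∧ D.AppOK η y t (D.alt t) := by
  obtain ⟨h1, η', x, h2, h3, -, h4⟩ := hS.app_spec t h.1
  obtain ⟨rfl, rfl⟩ := cat_inj (h.2.1.symm.trans h3)
  exact ⟨h2, h1, h4⟩

lemma Steps.fol_vis (hS : D.Steps) {t y s : ℕ} {η ν : List ℕ} (h : D.Fol t η y s)
    (h' : ν <+: η ++ [y]) : D.Vis ν t := ⟨(hS.fol h).2.1, h.2.1 ▸ h'⟩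

lemma Steps.step_vis (hS : D.Steps) {s : ℕ} (h : D.vis s = true) : D.pos s <+: D.pos (s + 1) :=
  hS.vis_pos s h ▸ pos_nxt s

lemma Steps.cand (hS : D.Steps) {s : ℕ} {α : List ℕ} (ha : α.length % 2 = 0)
    (h : D.Vis (α ++ [0]) s) : D.Cand α s (D.sib s α) := by
  rcases hS.vis_R s α 0 ha h with h1 | h1
  · exact h1.2
  · exact absurd h1.1 (by omega)

/-- at a visit no follower above the outcome is current -/
lemma Steps.lv (hS : D.Steps) {t y z s : ℕ} {η : List ℕ} (h : D.Cur t η y s)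
    (hv : D.Vis (η ++ [z]) s) (hz : z < y) : False :=
  (hS.vis_iff s).1 hv.1 ⟨t, η, y, h, Or.inr ⟨z, hz, (hS.vis_P s η z (hS.fol h.1).1 hv).1⟩⟩

lemma Steps.nest (hS : D.Steps) {α β : List ℕ} {s : ℕ} {w : List Bool} (ha : α.length % 2 = 0)
    (h : D.InT α s w) (hb : β.length % 2 = 0) (hp : β ++ [0] <+: α) : D.InT β s w := by
  obtain ⟨t, h1, h2, h3, h4⟩ := h
  have h5 : D.R β s ≤ t := (R_prefix (prefix_of_concat_prefix hp) s).trans h1
  rcases h4 with rfl | rfl
  · exact ⟨t, h5, h2, h3.of_prefix (hp.trans (List.prefix_append _ _)), Or.inl rfl⟩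
  · exact ((hS.cand ha h3).1.2.1 β hb hp).up h2.le h5

lemma Inv.cur_down (hI : D.Inv n) {t y s s' : ℕ} {η : List ℕ} (hs : s ≤ n) (h : D.Cur t η y s)
    (h1 : t < s') (h2 : s' ≤ s) : D.Cur t η y s' := by
  induction h2 with
  | refl => exact h
  | @step m hm ih => exact ih (by omega) (hI.k3 t η y m hs (h1.trans_le hm) h)

lemma Inv.cur_cur (hI : D.Inv n) {t t' y y' s : ℕ} {η η' : List ℕ} (hs : s ≤ n)
    (h : D.Cur t η y s) (h' : D.Cur t' η' y' s) (ht : t ≤ t') :
    D.pos (t + 1) <+: D.pos (t' + 1) := by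
  have a1 := h.1.2.2.2
  have a2 := h'.1.2.2.2
  refine pre_of_len h.2 h'.2 ?_
  rw [hI.len _ (by omega), hI.len _ (by omega)]
  omega

lemma Inv.dies (hS : D.Steps) (hI : D.Inv n) {s : ℕ} (hs : s + 1 ≤ n) (hv : ¬ D.vis s = true) :
    ¬ D.pos (D.act s + 1) <+: D.pos (s + 1) := by
  intro h
  obtain ⟨η, y, hc, -⟩ := (hS.act_spec s hv).1
  obtain ⟨-, a1, a2⟩ := hS.fol hc.1
  have a3 := hc.1.2.2.2
  refine a2.2.2.2.1 ?_
  rw [← hS.vis_pos _ a1]
  refine pre_of_len (hI.good s hs hv).2.1 h ?_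
  rw [hI.len _ (by omega)]
  exact a2.1

/-- while a follower is current no stage has a node of higher priority -/
lemma Inv.left (hS : D.Steps) (hI : D.Inv n) {t t' y s : ℕ} {η : List ℕ} (hs : s ≤ n)
    (h : D.Cur t η y s) (h1 : t < t') (h2 : t' < s) : η ++ [y] ≤ D.pi t' := by
  by_contra hc
  rcases lt_concat_iff.1 (not_le.1 hc) with h3 | ⟨z, hz, h3⟩
  · exact not_le_of_R_le (h.1.2.2.1.trans h1.le) h2 h3
  by_cases hv : D.vis t' = true
  · exact hS.lv (hI.cur_down hs h h1 h2.le) ⟨hv, h3⟩ hz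
  obtain ⟨⟨η', y', hc', -⟩, -, a2, -⟩ := hS.act_spec t' hv
  have a3 := hc'.1.2.2.2
  rw [a2] at h3
  rcases lt_trichotomy (D.act t') t with h4 | h4 | h4
  · exact hI.dies hS (by omega) hv ((hI.cur_cur (by omega) hc' (hI.cur_down hs h h1 h2.le)
      h4.le).trans (hI.cur_down hs h (show t < t' + 1 by omega) h2).2)
  · rw [h4, h.1.2.1] at h3
    exact absurd (cat_pre_cat h3) (by omega)
  · exact hS.lv (hI.cur_down hs h h4 (by omega)) ⟨(hS.fol hc'.1).2.1, h3⟩ hz

lemma Inv.root_alt (hS : D.Steps) (hI : D.Inv n) {t y s : ℕ} {η ν : List ℕ} (hs : s ≤ n)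
    (h : D.Cur t η y s) (hν : ¬ η ++ [y] ≤ ν) : D.pos (D.R ν s) <+: D.alt t := by
  have a1 := h.1.2.2.2
  have a2 := R_le (D := D) (η ++ [y]) t
  have a3 : D.R ν s ≤ D.R (η ++ [y]) t := R_le_of fun t' h1 h2 h3 => by
    rcases lt_trichotomy t' t with h4 | h4 | h4
    · exact not_le_of_R_le h1 h4 (h3.trans (not_le.1 hν).le)
    · exact hν (h.1.2.1 ▸ h4 ▸ h3)
    · exact hν ((hI.left hS hs h h4 h2).trans h3)
  rw [← R_eq (show D.R (η ++ [y]) t ≤ s by omega) a3]
  exact (hI.k1 ν _ (by omega)).trans (hS.fol h.1).2.2.2.2.1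

lemma Inv.cur_up (hI : D.Inv n) {t y s s' : ℕ} {η : List ℕ} (hs : s' ≤ n) (h : D.Cur t η y s)
    (h1 : s ≤ s') (h2 : D.R (η ++ [y]) s' ≤ s) : D.Cur t η y s' := by
  have a1 := h.1.2.2.2
  have a2 : t < D.R (η ++ [y]) s' := lt_R (by omega) h.1.2.1.le
  exact ⟨h.1.up h1 ((R_prefix (List.prefix_append _ _) s').trans h2),
    (hI.cur_down (by omega) h a2 h2).2.trans (hI.k1 _ _ hs)⟩

lemma Inv.alive_up (hS : D.Steps) (hI : D.Inv n) {β : List ℕ} {t s : ℕ} {w : List Bool}
    (hs : s ≤ n) (hb : β.length % 2 = 0) (hv : D.Vis β t) (h1 : D.R β s ≤ t) (h2 : t < s)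
    (hw : w.length ≤ t + 1) (h : D.Alive β t w) : D.Alive β s w := by
  intro t1 η y hη hf hp
  have a1 := hf.2.2.2
  have a2 := (hS.fol hf).1
  have a3 : η ≠ β := fun e => by rw [e] at a2; omega
  rcases lt_trichotomy t1 t with h4 | h4 | h4
  · have hc : D.Cur t1 η y t := ⟨hf.down h4 h2.le, h t1 η y hη (hf.down h4 h2.le) hp⟩
    obtain ⟨x, hx⟩ := exists_concat_prefix hη a3
    have a4 : y ≤ x := not_lt.1 fun hlt => hS.lv hc (hv.of_prefix hx) hlt
    have a5 : η ++ [y] ≤ β := (not_lt.1 fun hlt =>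
      absurd (concat_lt_concat_iff.1 hlt) (not_lt.2 a4)).trans (le_of_prefix hx)
    exact (hI.cur_up hs hc h2.le ((R_node a5 s).trans h1)).2
  · subst h4
    rcases prefix_concat_cases (hf.2.1 ▸ hv.2) with e | e
    · exact absurd (hf.2.1.trans e.symm).le (not_le_of_R_le h1 h2)
    · exact absurd (hη.eq_of_length_le e.length_le) a3
  · have := hp.length_le
    rw [hI.len _ (by omega)] at this
    omega

lemma Inv.new (hP : D.Par) (hS : D.Steps) (hI : D.Inv n) {α : List ℕ} {t : ℕ} {w : List Bool}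
    (ht : t ≤ n) (ha : α.length % 2 = 0) (hv : D.Vis (α ++ [0]) t)
    (hw : w = D.pos (t + 1) ∨ w = D.sib t α) : D.OK α t w ∧ w.length ≤ t + 1 := by
  rcases hw with rfl | rfl
  · refine ⟨(hI.k2 α t ht ha).mono hP (hS.step_vis hv.1), ?_⟩
    rw [hS.vis_pos t hv.1, nxt, List.length_append, hI.len t ht]
    exact le_rfl
  · exact ⟨(hS.cand ha hv).1.2.2.2.1, (hS.cand ha hv).1.1⟩

lemma Inv.inT_len (hP : D.Par) (hS : D.Steps) (hI : D.Inv n) {α : List ℕ} {s : ℕ}
    {w : List Bool} (hs : s ≤ n) (ha : α.length % 2 = 0) (h : D.InT α s w) : w.length ≤ s := by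
  obtain ⟨t, -, h2, h3, h4⟩ := h
  have := (hI.new hP hS (by omega) ha h3 h4).2
  omega

lemma Steps.pair (hS : D.Steps) {α : List ℕ} {t : ℕ} (ha : α.length % 2 = 0)
    (hv : D.Vis (α ++ [0]) t) : D.sp (α.length / 2) (D.pos (t + 1)) (D.sib t α) = true :=
  hS.vis_pos t hv.1 ▸ (hS.cand ha hv).2

lemma Inv.t_split (hP : D.Par) (hS : D.Steps) (hI : D.Inv n) {α : List ℕ} {s : ℕ}
    {u v : List Bool} (hs : s ≤ n) (ha : α.length % 2 = 0) (hu : D.InT α s u)
    (hv : D.InT α s v) : u <+: v ∨ v <+: u ∨ D.sp (α.length / 2) u v = true := by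
  obtain ⟨t, h1, h2, h3, h4⟩ := hu
  obtain ⟨t', h1', h2', h3', h4'⟩ := hv
  rcases lt_trichotomy t t' with h | h | h
  · exact ((hI.new hP hS (by omega) ha h3' h4').1 u
      ⟨t, (R_mono α h2'.le).trans h1, h, h3, h4⟩).imp id Or.inr
  · subst h
    have := hS.pair ha h3
    rcases h4 with rfl | rfl <;> rcases h4' with rfl | rfl
    · exact Or.inl (List.prefix_refl _)
    · exact Or.inr (Or.inr this)
    · exact Or.inr (Or.inr (hP.sp_symm _ _ _ this))
    · exact Or.inl (List.prefix_refl _)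
  · exact Or.inr (((hI.new hP hS (by omega) ha h3 h4).1 v
      ⟨t', (R_mono α h2.le).trans h1', h, h3', h4'⟩).imp id (hP.sp_symm _ _ _))

/-- a living node that is not maximal has a living proper extension -/
lemma Inv.climb_one (hP : D.Par) (hS : D.Steps) (hI : D.Inv n) {β η : List ℕ} {s : ℕ}
    {w : List Bool} (hs : s ≤ n) (hb : β.length % 2 = 0) (hp : β ++ [0] <+: η)
    (hw : D.InT β s w) (ha : D.Alive η s w) (hn : ¬ D.OK β s w) :
    ∃ l, w <+: l ∧ l ≠ w ∧ D.InT β s l ∧ D.Alive η s l := by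
  classical
  have hex : ∃ t, D.R β s ≤ t ∧ t < s ∧ D.Vis (β ++ [0]) t ∧
      ∃ v, (v = D.pos (t + 1) ∨ v = D.sib t β) ∧ w <+: v ∧ v ≠ w := by
    by_contra hc
    refine hn fun v hv => ?_
    rcases hI.t_split hP hS hs hb hv hw with h | h | h
    · exact Or.inl h
    · obtain ⟨t, h1, h2, h3, h4⟩ := hv
      by_cases e : v = w
      · exact Or.inl (e ▸ List.prefix_refl _)
      · exact absurd ⟨t, h1, h2, h3, v, h4, h, e⟩ hc
    · exact Or.inr h
  obtain ⟨h1, h2, h3, v, h4, h5, h6⟩ := Nat.find_spec hex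
  have hmin := fun m => Nat.find_min hex (m := m)
  generalize Nat.find hex = t at h1 h2 h3 h4 hmin
  have hc := hS.cand hb h3
  have hsp := hS.pair hb h3
  have e := hS.vis_pos t h3.1
  have hwt : D.InT β t w := by
    obtain ⟨t', b1, b2, b3, b4⟩ := hw
    rcases lt_trichotomy t' t with h | h | h
    · exact ⟨t', (R_mono β h2.le).trans b1, h, b3, b4⟩
    · subst h
      rcases h4 with rfl | rfl <;> rcases b4 with rfl | rfl
      · exact absurd rfl h6
      · exact absurd hsp (hP.not_sp (List.prefix_refl _) h5)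
      · exact absurd hsp (hP.not_sp h5 (List.prefix_refl _))
      · exact absurd rfl h6
    · rcases (hI.new hP hS (by omega) hb b3 b4).1 v
        ⟨t, (R_mono β b2.le).trans h1, h, h3, h4⟩ with c | c
      · exact absurd (c.eq_of_length_le h5.length_le) h6
      · exact absurd c (hP.not_sp (List.prefix_refl _) h5)
  have hiff := hc.1.2.2.2.2 w hwt
  have b1 : w <+: D.sib t β := by
    rcases h4 with rfl | rfl
    · exact hiff.1 (e ▸ h5)
    · exact h5
  have b2 : w <+: D.pos (t + 1) := e ▸ hiff.2 b1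
  refine ⟨D.sib t β, b1, fun e' => hP.not_sp (List.prefix_refl _) (e' ▸ b2) hsp,
    ⟨t, h1, h2, h3, Or.inr rfl⟩, ?_⟩
  intro t1 η1 y1 hη hf hq
  have a1 := hf.2.2.2
  have key : β ++ [0] <+: η1 → D.pos (t1 + 1) <+: D.pos s := by
    intro hβ
    rcases lt_trichotomy t1 t with h | h | h
    · rcases List.prefix_or_prefix_of_prefix hq b1 with c | c
      · exact ha t1 η1 y1 hη hf c
      · by_cases e' : D.pos (t1 + 1) = w
        · exact ha t1 η1 y1 hη hf (e' ▸ List.prefix_refl _)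
        · exact absurd ⟨(R_prefix (prefix_of_concat_prefix hβ) s).trans hf.2.2.1, a1,
            hS.fol_vis hf (hβ.trans (List.prefix_append _ _)), _, Or.inl rfl, c, e'⟩ (hmin t1 h)
    · subst h
      exact absurd hsp (hP.not_sp hq (List.prefix_refl _))
    · have c1 := hq.length_le
      have c2 := hc.1.1
      rw [hI.len _ (by omega)] at c1
      omega
  rcases List.prefix_or_prefix_of_prefix hη hp with c | c
  · rcases prefix_concat_cases c with c' | c'
    · exact key (c' ▸ List.prefix_refl _)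
    · exact hI.alive_up hS hs hb (h3.of_prefix (List.prefix_append _ _)) h1 h2 hc.1.1
        hc.1.2.2.1 t1 η1 y1 c' hf hq
  · exact key c

lemma Inv.climb (hP : D.Par) (hS : D.Steps) (hI : D.Inv n) {β η : List ℕ} {s : ℕ}
    (hs : s ≤ n) (hb : β.length % 2 = 0) (hp : β ++ [0] <+: η) (k : ℕ) :
    ∀ w : List Bool, s ≤ w.length + k → D.InT β s w → D.Alive η s w →
      ∃ l, w <+: l ∧ D.InT β s l ∧ D.Alive η s l ∧ D.OK β s l := by
  induction k with
  | zero =>
    intro w hk hw ha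
    by_cases hn : D.OK β s w
    · exact ⟨w, List.prefix_refl _, hw, ha, hn⟩
    · obtain ⟨l, h1, h2, h3, -⟩ := hI.climb_one hP hS hs hb hp hw ha hn
      have := hI.inT_len hP hS hs hb h3
      exact absurd (h1.eq_of_length_le (by omega)).symm h2
  | succ k ih =>
    intro w hk hw ha
    by_cases hn : D.OK β s w
    · exact ⟨w, List.prefix_refl _, hw, ha, hn⟩
    · obtain ⟨l, h1, h2, h3, h4⟩ := hI.climb_one hP hS hs hb hp hw ha hn
      have a1 : w.length < l.length := lt_of_le_of_ne h1.length_le fun e =>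
        h2 (h1.eq_of_length e).symm
      obtain ⟨l', b1, b2⟩ := ih l (by omega) h3 h4
      exact ⟨l', h1.trans b1, b2⟩

lemma pad_false {u w : List Bool} {k : ℕ} (h : u ++ [false] <+: w ++ List.replicate k true) :
    u ++ [false] <+: w := by
  by_cases hl : (u ++ [false]).length ≤ w.length
  · exact pre_of_len h (List.prefix_append _ _) hl
  · exfalso
    rw [List.length_append, List.length_singleton] at hl
    obtain ⟨r, hr⟩ := h
    have h1 : (u ++ [false] ++ r)[u.length]? = some false := by simp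
    rw [hr, List.getElem?_append_right (by omega)] at h1
    have := List.eq_of_mem_replicate (List.mem_of_getElem? h1)
    simp at this

lemma Inv.climb_all (hP : D.Par) (hS : D.Steps) (hI : D.Inv n) {η : List ℕ} {s : ℕ}
    (hs : s ≤ n) (ν : List ℕ) : ν <+: η → ∀ w : List Bool, w.length ≤ s → D.Base ν s w →
      D.Alive η s w → ∃ w', w <+: w' ∧ w'.length = s + 1 ∧ D.Alive η s w' ∧
        ∀ β, β.length % 2 = 0 → β ++ [0] <+: ν → D.OK β s w' := by
  induction ν using List.reverseRecOn with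
  | nil =>
    intro _ w hl _ ha
    refine ⟨w ++ List.replicate (s + 1 - w.length) true, List.prefix_append _ _,
      by simp; omega, ?_, fun β _ h => by simp at h⟩
    intro t1 η1 y1 hη hf hq
    refine ha t1 η1 y1 hη hf ?_
    rw [hS.vis_pos t1 (hS.fol hf).2.1] at hq ⊢
    exact pad_false hq
  | append_singleton ν o ih =>
    intro hν w hl hB ha
    by_cases hc : ν.length % 2 = 0 ∧ o = 0
    · obtain ⟨hc, rfl⟩ := hc
      obtain ⟨l, h1, h2, h3, h4⟩ := hI.climb hP hS hs hc hν s w (by omega)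
        (hB ν hc (List.prefix_refl _)) ha
      obtain ⟨w', b1, b2, b3, b4⟩ := ih (prefix_of_concat_prefix hν) l
        (hI.inT_len hP hS hs hc h2) (fun β hb hβ => hS.nest hc h2 hb hβ) h3
      refine ⟨w', h1.trans b1, b2, b3, fun β hb hβ => ?_⟩
      rcases prefix_concat_cases hβ with e | e
      · exact (cat_inj e).1 ▸ h4.mono hP b1
      · exact b4 β hb e
    · obtain ⟨w', b1, b2, b3, b4⟩ := ih (prefix_of_concat_prefix hν) w hl
        (fun β hb hβ => hB β hb (hβ.trans (List.prefix_append _ _))) ha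
      refine ⟨w', b1, b2, b3, fun β hb hβ => ?_⟩
      rcases prefix_concat_cases hβ with e | e
      · exact absurd ⟨(cat_inj e).1 ▸ hb, (cat_inj e).2.symm⟩ hc
      · exact b4 β hb e

lemma Inv.good_exists (hP : D.Par) (hS : D.Steps) (hI : D.Inv n) {t y s : ℕ} {η : List ℕ}
    (hs : s ≤ n) (h : D.Cur t η y s) : ∃ w, D.Good t s w := by
  obtain ⟨-, a1, a2, -, -, -, a3, a4⟩ := hS.fol h.1
  have a5 := h.1.2.2.2
  have hA : D.Alive η s (D.alt t) := by
    intro t1 η1 y1 hη hf hq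
    have c0 := hf.2.2.2
    rcases lt_trichotomy t1 t with c | c | c
    · exact ((a3 t1 η1 y1 hη (hf.down c a5.le) hq).trans (hS.step_vis a1)).trans h.2
    · exact c ▸ h.2
    · have c1 := hq.length_le
      rw [hI.len _ (by omega)] at c1
      omega
  have hB : D.Base η s (D.alt t) := by
    intro β hb hβ
    have c1 : D.R β s ≤ t := (R_prefix (prefix_of_concat_prefix hβ) s).trans h.1.2.2.1
    rcases a4 β hb hβ with c | c
    · exact c.up a5.le c1
    · exact ⟨t, c1, a5, hS.fol_vis h.1 (hβ.trans (List.prefix_append _ _)), Or.inr c⟩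
  obtain ⟨w, b1, b2, b3, b4⟩ := hI.climb_all hP hS hs η (List.prefix_refl _) _ (by omega) hB hA
  refine ⟨w, b2, b1, fun η' y' e => ?_⟩
  obtain ⟨rfl, -⟩ := cat_inj (h.1.2.1.symm.trans e)
  exact ⟨b3, b4⟩

lemma Steps.inv_zero (hS : D.Steps) : D.Inv 0 where
  len s hs := by rw [Nat.le_zero.1 hs, hS.pos0]; rfl
  k1 ν s hs := by rw [Nat.le_zero.1 hs]; exact List.prefix_refl _
  k2 α s hs _ v hv := by
    obtain ⟨t, -, h, -⟩ := hv
    omega
  k3 _ _ _ _ hs := by omega
  good _ hs := by omega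

lemma Inv.succ (hP : D.Par) (hS : D.Steps) (hI : D.Inv n) : D.Inv (n + 1) := by
  have hg : ¬ D.vis n = true → ∃ η y, D.Cur (D.act n) η y n ∧ D.pi n = η ++ [y] ∧
      D.Good (D.act n) n (D.pos (n + 1)) := fun hv => by
    obtain ⟨⟨η, y, hc, -⟩, -, a2, a3⟩ := hS.act_spec n hv
    exact ⟨η, y, hc, a2.trans hc.1.2.1, a3 (hI.good_exists hP hS le_rfl hc)⟩
  have hlen : (D.pos (n + 1)).length = n + 1 := by
    by_cases hv : D.vis n = true
    · rw [hS.vis_pos n hv, nxt, List.length_append, hI.len n le_rfl]; rfl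
    · obtain ⟨_, _, -, -, h⟩ := hg hv
      exact h.1
  have hroot : ∀ ν, ¬ D.pi n ≤ ν → D.pos (D.R ν n) <+: D.pos (n + 1) := fun ν hν => by
    by_cases hv : D.vis n = true
    · exact (hI.k1 ν n le_rfl).trans (hS.step_vis hv)
    · obtain ⟨η, y, hc, e, h⟩ := hg hv
      exact (hI.root_alt hS le_rfl hc (e ▸ hν)).trans h.2.1
  refine ⟨fun s hs => ?_, fun ν s hs => ?_, fun α s hs ha => ?_, fun t η y s hs ht hc => ?_,
    fun s hs hv => ?_⟩
  · rcases Nat.lt_or_ge s (n + 1) with h | h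
    · exact hI.len s (by omega)
    · rw [le_antisymm hs h]; exact hlen
  · rcases Nat.lt_or_ge s (n + 1) with h | h
    · exact hI.k1 ν s (by omega)
    · rw [le_antisymm hs h]
      by_cases hν : D.pi n ≤ ν
      · rw [R_succ_of_le hν]
      · rw [R_succ_of_not hν]; exact hroot ν hν
  · rcases Nat.lt_or_ge s (n + 1) with h | h
    · exact hI.k2 α s (by omega) ha
    rw [le_antisymm hs h]
    rintro v ⟨t, h1, h2, h3, h4⟩
    have hα : ¬ D.pi n ≤ α := not_le_of_R_le (h1.trans (by omega)) (Nat.lt_succ_self n)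
    rw [R_succ_of_not hα] at h1
    rcases Nat.lt_or_ge t n with h5 | h5
    · by_cases hv : D.vis n = true
      · exact (hI.k2 α n le_rfl ha).mono hP (hS.step_vis hv) v ⟨t, h1, h5, h3, h4⟩
      obtain ⟨η, y, hc, e, hG⟩ := hg hv
      have hodd := (hS.fol hc.1).1
      have hne : η ≠ α := fun e' => by rw [e'] at hodd; omega
      by_cases h6 : D.pi n ≤ α ++ [1]
      · refine (hG.2.2 η y hc.1.2.1).2 α ha ?_ v ⟨t, h1, h5, h3, h4⟩
        rcases h6.lt_or_eq with h7 | h7
        · rcases lt_concat_iff.1 h7 with h8 | ⟨j, hj, h8⟩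
          · exact absurd h8 hα
          · obtain rfl : j = 0 := by omega
            rcases prefix_concat_cases (e ▸ h8) with h9 | h9
            · exact absurd (cat_inj h9).1.symm hne
            · exact h9
        · exact absurd (cat_inj (e.symm.trans h7)).1 hne
      · have b1 := R_le (D := D) (α ++ [1]) n
        have b2 : t < D.R (α ++ [1]) n :=
          lt_R h5 (lt_concat_iff.2 (Or.inr ⟨0, Nat.zero_lt_one, h3.2⟩)).le
        exact (hI.k2 α _ b1 ha).mono hP (hroot _ h6) v ⟨t, (R_mono α b1).trans h1, b2, h3, h4⟩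
    · obtain rfl : t = n := by omega
      rcases h4 with rfl | rfl
      · exact Or.inl (List.prefix_refl _)
      · exact Or.inr (hP.sp_symm _ _ _ (hS.pair ha h3))
  · rcases Nat.lt_or_ge s n with h | h
    · exact hI.k3 t η y s h ht hc
    obtain rfl : s = n := by omega
    have hf := hc.1.down ht (Nat.le_succ s)
    refine ⟨hf, ?_⟩
    by_cases hv : D.vis s = true
    · refine pre_of_len hc.2 (hS.step_vis hv) ?_
      rw [hI.len _ (by omega), hI.len _ le_rfl]
      omega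
    obtain ⟨η', y', hc', e, hG⟩ := hg hv
    by_cases h6 : D.pi s ≤ η ++ [y]
    · refine (hG.2.2 η' y' hc'.1.2.1).1 t η y ?_ hf hc.2
      rcases h6.lt_or_eq with h7 | h7
      · rcases lt_concat_iff.1 h7 with h8 | ⟨j, -, h8⟩
        · exact absurd h8 (not_le_of_R_le (hc.1.2.2.1.trans ht.le) (Nat.lt_succ_self s))
        · rcases prefix_concat_cases (e ▸ h8) with h9 | h9
          · exact (cat_inj h9).1 ▸ List.prefix_refl _
          · exact prefix_of_concat_prefix h9
      · exact (cat_inj (e.symm.trans h7)).1 ▸ List.prefix_refl _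
    · have b1 := R_le (D := D) (η ++ [y]) s
      have b2 : t < D.R (η ++ [y]) s := lt_R ht hf.2.1.le
      refine (pre_of_len hc.2 (hroot _ h6) ?_).trans (hI.k1 _ _ le_rfl)
      rw [hI.len _ (by omega), hI.len _ b1]
      omega
  · rcases Nat.lt_or_ge s n with h | h
    · exact hI.good s h hv
    · obtain rfl : s = n := by omega
      obtain ⟨_, _, -, -, h⟩ := hg hv
      exact h

lemma Steps.inv (hP : D.Par) (hS : D.Steps) (n : ℕ) : D.Inv n := by
  induction n with
  | zero => exact hS.inv_zero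
  | succ n ih => exact ih.succ hP hS

lemma Steps.bad_dies (hP : D.Par) (hS : D.Steps) {t s : ℕ} (h : D.Bad t s) :
    ¬ D.pos (t + 1) <+: D.pos (s + 1) := by
  intro hq
  have hv : ¬ D.vis s = true := fun hv => (hS.vis_iff s).1 hv ⟨t, h⟩
  obtain ⟨⟨η', y', hc', -⟩, a1, -⟩ := hS.act_spec s hv
  have a2 : D.act s ≤ t := not_lt.1 fun hlt => a1 t hlt h
  obtain ⟨η, y, hc, -⟩ := h
  have hI := hS.inv hP (s + 1)
  exact hI.dies hS le_rfl hv ((hI.cur_cur (Nat.le_succ s) hc' hc a2).trans hq)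

/-- a follower becomes bad only after a small enumeration -/
lemma Steps.not_bad (hP : D.Par) (hS : D.Steps) {t y s : ℕ} {η : List ℕ}
    (hc : D.Cur t η y (s + 1)) (hk : ∀ m, m < D.R (η ++ [y]) t → D.a (s + 1) m = D.a s m) :
    ¬ (D.a (s + 1) y = true ∨ ∃ x, x < y ∧ ¬ D.Passed η x (s + 1)) := by
  have hI := hS.inv hP (s + 1)
  obtain ⟨hodd, hvt, hA⟩ := hS.fol hc.1
  have a1 := hc.1.2.2.2
  have hnb : ¬ D.a s y = true ∧ ∀ x, x < y → D.Passed η x s := by
    rcases Nat.lt_or_ge t s with h | h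
    · have hb : ¬ D.Bad t s := fun hb => hS.bad_dies hP hb hc.2
      have hcs := hI.cur_down le_rfl hc h (Nat.le_succ s)
      exact ⟨fun h1 => hb ⟨η, y, hcs, Or.inl h1⟩, fun x hx =>
        not_not.1 fun h1 => hb ⟨η, y, hcs, Or.inr ⟨x, hx, h1⟩⟩⟩
    · obtain rfl : t = s := by omega
      have := hS.vis_P t η y hodd (hS.fol_vis hc.1 (List.prefix_refl _))
      exact ⟨fun h1 => this.1 (Or.inl h1), this.2⟩
  rintro (h | ⟨x, hx, h⟩)
  · exact hnb.1 (hk y hA.2.1 ▸ h)
  refine h ?_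
  have hnv : ∀ t', t ≤ t' → t' ≤ s → ¬ D.Vis (η ++ [x]) t' := fun t' h1 h2 hv => by
    rcases h1.lt_or_eq with h3 | h3
    · exact hS.lv (hI.cur_down le_rfl hc h3 (by omega)) hv hx
    · subst h3
      exact absurd (cat_pre_cat (hc.1.2.1 ▸ hv.2)) (by omega)
  rcases hnb.2 x hx with h1 | ⟨t', hc', hcov⟩
  · exact Or.inl (hP.a_mono _ _ h1)
  have a2 := hc'.1.2.2.2
  have a3 : t' < t := not_le.1 fun h1 =>
    hnv t' h1 a2.le (hS.fol_vis hc'.1 (List.prefix_refl _))
  have a4 : D.U (η ++ [x]) s ≤ D.R (η ++ [y]) t := by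
    rcases U_spec (D := D) (η ++ [x]) s with h0 | ⟨t'', b1, b2, b3⟩
    · omega
    · have b4 : t'' < t := not_le.1 fun h1 => hnv t'' h1 b1.le b2
      have := lt_R b4 (lt_concat_iff.2 (Or.inr ⟨x, hx, b2.2⟩)).le
      omega
  refine Or.inr ⟨t', ⟨hc'.1.up (Nat.le_succ s) (hc.1.2.2.1.trans (by omega)), ?_⟩, ?_⟩
  · rcases Nat.lt_or_ge t s with h2 | h2
    · exact (hI.cur_cur (Nat.le_succ s) hc' (hI.cur_down le_rfl hc h2 (Nat.le_succ s))
        a3.le).trans hc.2
    · obtain rfl : t = s := by omega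
      exact hc'.2.trans (hS.step_vis hvt)
  · rw [U_succ_of_not (hnv s (by omega) le_rfl),
      pre_congr (b := D.a s) fun j hj => hk j (by omega)]
    exact hcov

lemma Steps.perm (hP : D.Par) (hS : D.Steps) (s k : ℕ)
    (hk : ∀ m, m < k → D.a (s + 1) m = D.a s m) :
    (D.pos (s + 1)).take k <+: D.pos (s + 2) := by
  by_cases hv : D.vis (s + 1) = true
  · exact (List.take_prefix _ _).trans (hS.step_vis hv)
  have hI := hS.inv hP (s + 2)
  obtain ⟨⟨η, y, hc, hb⟩, -⟩ := hS.act_spec (s + 1) hv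
  obtain ⟨-, hvt, hA⟩ := hS.fol hc.1
  have a1 := hc.1.2.2.2
  have a2 := R_le (D := D) (η ++ [y]) (D.act (s + 1))
  rcases Nat.lt_or_ge (D.R (η ++ [y]) (D.act (s + 1))) k with h | h
  · exact absurd hb (hS.not_bad hP hc fun m hm => hk m (by omega))
  · refine (pre_of_len (List.take_prefix _ _)
      (((hI.k1 (η ++ [y]) _ (by omega)).trans (hS.step_vis hvt)).trans hc.2) ?_).trans
      (hA.2.2.1.trans (hI.good (s + 1) le_rfl hv).2.1)
    rw [hI.len (D.R _ _) (by omega), List.length_take]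
    omega

end Data

theorem stInv : StInv := fun _ hP hS =>
  { len_pos := fun s => (hS.inv hP s).len s le_rfl
    k1 := fun ν s => (hS.inv hP s).k1 ν s le_rfl
    k2 := fun α s => (hS.inv hP s).k2 α s le_rfl
    cur_down := fun _ _ _ s _ => (hS.inv hP s).cur_down le_rfl
    cur_up := fun _ _ _ _ s' => (hS.inv hP s').cur_up le_rfl
    alive_up := fun _ _ s _ => (hS.inv hP s).alive_up hS le_rfl
    t_split := fun _ s _ _ => (hS.inv hP s).t_split hP hS le_rfl
    bad_dies := fun _ _ => hS.bad_dies hP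
    perm := hS.perm hP }

end Pool.Agent.MP_68d28f_lc.CE.Meet
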