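import Pool.Agent.MP_68d28f_lc.ce.Kit
import Pool.Agent.MP_68d28f_lc.ce.Lex

/-!
Block T1: the history of the construction of a minimal cover, the rules of a stage, and the
statements of the four parts of the proof.
-/

namespace Pool.Agent.MP_68d28f_lc.CE.Meet

open Pool.Agent.MP_b427ce_lc

/-- the parameters and the history of a run -/
structure Data where
  /-- the enumeration: `a s n` holds if `n` is enumerated before stage `s` -/
  a : ℕ → ℕ → Bool
  /-- two strings split for the functional `e` -/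
  sp : ℕ → List Bool → List Bool → Bool
  /-- the functional `e` with a finite part of the enumerated set computes the string -/
  cov : ℕ → List Bool → List Bool → Bool
  /-- the stage is a visit (otherwise an action) -/
  vis : ℕ → Bool
  /-- the node of the stage -/
  pi : ℕ → List ℕ
  /-- the position before the stage -/
  pos : ℕ → List Bool
  /-- the sibling found at the stage by the node -/
  sib : ℕ → List ℕ → List Bool
  /-- the stage appoints a follower -/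
  app : ℕ → Bool
  /-- the other side of the follower appointed at the stage -/
  alt : ℕ → List Bool
  /-- the follower that acts at the stage -/
  act : ℕ → ℕ

namespace Data

variable (D : Data)

/-- the time after the last reset of the node -/
def R (ν : List ℕ) : ℕ → ℕ
  | 0 => 0
  | s + 1 => if D.pi s ≤ ν then s + 1 else R ν s

/-- the time after the last visit of the node -/
def U (ν : List ℕ) : ℕ → ℕ
  | 0 => 0
  | s + 1 => if D.vis s = true ∧ ν <+: D.pi s then s + 1 else U ν s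

/-- the node is visited at the stage -/
def Vis (ν : List ℕ) (s : ℕ) : Prop := D.vis s = true ∧ ν <+: D.pi s

/-- the string is on the tree of the node before stage `s` -/
def InT (α : List ℕ) (s : ℕ) (w : List Bool) : Prop :=
  ∃ t, D.R α s ≤ t ∧ t < s ∧ D.Vis (α ++ [0]) t ∧ (w = D.pos (t + 1) ∨ w = D.sib t α)

/-- the follower appointed at stage `t` belongs to the data of `η` before stage `s` -/
def Fol (t : ℕ) (η : List ℕ) (y s : ℕ) : Prop :=
  D.app t = true ∧ D.pi t = η ++ [y] ∧ D.R η s ≤ t ∧ t < s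

/-- the follower is current -/
def Cur (t : ℕ) (η : List ℕ) (y s : ℕ) : Prop := D.Fol t η y s ∧ D.pos (t + 1) <+: D.pos s

/-- the number is enumerated or has a covered current follower -/
def Passed (η : List ℕ) (x s : ℕ) : Prop :=
  D.a s x = true ∨ ∃ t, D.Cur t η x s ∧
    D.cov (η.length / 2) (pre (D.a s) (D.U (η ++ [x]) s)) (D.pos (t + 1)) = true

/-- the follower has to be left -/
def Bad (t s : ℕ) : Prop :=
  ∃ η y, D.Cur t η y s ∧ (D.a s y = true ∨ ∃ x, x < y ∧ ¬ D.Passed η x s)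

/-- the string extends no dead follower of an initial segment of `ν` -/
def Alive (ν : List ℕ) (s : ℕ) (w : List Bool) : Prop :=
  ∀ t η y, η <+: ν → D.Fol t η y s → D.pos (t + 1) <+: w → D.pos (t + 1) <+: D.pos s

/-- the string can be put on the tree of the node -/
def OK (α : List ℕ) (s : ℕ) (w : List Bool) : Prop :=
  ∀ v, D.InT α s v → v <+: w ∨ D.sp (α.length / 2) v w = true

/-- the string is on all trees that the node believes infinite -/
def Base (ν : List ℕ) (s : ℕ) (w : List Bool) : Prop :=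
  ∀ β, β.length % 2 = 0 → β ++ [0] <+: ν → D.InT β s w

/-- the position after a visit -/
def nxt (s : ℕ) : List Bool := D.pos s ++ [false]

/-- a string that the node may use as a sibling if it splits -/
def PreCand (α : List ℕ) (s : ℕ) (w : List Bool) : Prop :=
  w.length ≤ s + 1 ∧ D.Base α s w ∧ D.Alive α s w ∧ D.OK α s w ∧
    ∀ v, D.InT α s v → (v <+: D.nxt s ↔ v <+: w)

/-- a sibling -/
def Cand (α : List ℕ) (s : ℕ) (w : List Bool) : Prop :=
  D.PreCand α s w ∧ D.sp (α.length / 2) (D.nxt s) w = true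

/-- the other side of a new follower -/
def AppOK (η : List ℕ) (x s : ℕ) (w : List Bool) : Prop :=
  w.length ≤ s + 1 ∧ x < D.R (η ++ [x]) s ∧ D.pos (D.R (η ++ [x]) s) <+: w ∧ ¬ w <+: D.nxt s ∧
    D.Alive η s w ∧ ∀ β, β.length % 2 = 0 → β ++ [0] <+: η → D.InT β s w ∨ w = D.sib s β

/-- a position after the action of the follower `t` -/
def Good (t s : ℕ) (w : List Bool) : Prop :=
  w.length = s + 1 ∧ D.alt t <+: w ∧ ∀ η y, D.pi t = η ++ [y] →
    D.Alive η s w ∧ ∀ β, β.length % 2 = 0 → β ++ [0] <+: η → D.OK β s w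

/-- the hypotheses on the parameters -/
structure Par : Prop where
  a_mono : ∀ s n, D.a s n = true → D.a (s + 1) n = true
  a_lt : ∀ s n, D.a s n = true → n < s
  sp_symm : ∀ e u v, D.sp e u v = true → D.sp e v u = true
  sp_mono : ∀ e u u' v, u <+: u' → D.sp e u v = true → D.sp e u' v = true
  sp_irr : ∀ e u, ¬ D.sp e u u = true
  cov_mono : ∀ e σ σ' w, σ <+: σ' → D.cov e σ w = true → D.cov e σ' w = true
  cov_down : ∀ e σ w w', w <+: w' → D.cov e σ w' = true → D.cov e σ w = true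

/-- the rules of a stage -/
structure Steps : Prop where
  pos0 : D.pos 0 = []
  vis_iff : ∀ s, D.vis s = true ↔ ¬ ∃ t, D.Bad t s
  vis_pos : ∀ s, D.vis s = true → D.pos (s + 1) = D.nxt s
  vis_len : ∀ s, D.vis s = true → (D.pi s).length ≤ s
  vis_R : ∀ s α o, α.length % 2 = 0 → D.Vis (α ++ [o]) s →
    (o = 0 ∧ D.Cand α s (D.sib s α)) ∨ (o = 1 ∧ ∀ w, ¬ D.Cand α s w)
  vis_P : ∀ s η x, η.length % 2 = 1 → D.Vis (η ++ [x]) s →
    ¬ D.Passed η x s ∧ ∀ x', x' < x → D.Passed η x' s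
  vis_go : ∀ s η x, η.length % 2 = 1 → D.Vis (η ++ [x]) s → η ++ [x] ≠ D.pi s →
    ∃ t, D.Cur t η x s
  app_spec : ∀ s, D.app s = true → D.vis s = true ∧ ∃ η x, η.length % 2 = 1 ∧
    D.pi s = η ++ [x] ∧ (¬ ∃ t, D.Cur t η x s) ∧ D.AppOK η x s (D.alt s)
  stop : ∀ s, D.vis s = true → (D.pi s).length < s → ∃ η x, η.length % 2 = 1 ∧
    D.pi s = η ++ [x] ∧ (¬ ∃ t, D.Cur t η x s) ∧ (D.app s = true ∨ ∀ w, ¬ D.AppOK η x s w)
  act_spec : ∀ s, ¬ D.vis s = true → D.Bad (D.act s) s ∧ (∀ t, t < D.act s → ¬ D.Bad t s) ∧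
    D.pi s = D.pi (D.act s) ∧ ((∃ w, D.Good (D.act s) s w) → D.Good (D.act s) s (D.pos (s + 1)))

/-- the invariants -/
structure Facts : Prop where
  len_pos : ∀ s, (D.pos s).length = s
  k1 : ∀ ν s, D.pos (D.R ν s) <+: D.pos s
  k2 : ∀ α s, α.length % 2 = 0 → D.OK α s (D.pos s)
  cur_down : ∀ t η y s s', D.Cur t η y s → t < s' → s' ≤ s → D.Cur t η y s'
  cur_up : ∀ t η y s s', D.Cur t η y s → s ≤ s' → D.R (η ++ [y]) s' ≤ s → D.Cur t η y s'
  alive_up : ∀ β t s w, β.length % 2 = 0 → D.Vis β t → D.R β s ≤ t → t < s →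
    w.length ≤ t + 1 → D.Alive β t w → D.Alive β s w
  t_split : ∀ α s u v, α.length % 2 = 0 → D.InT α s u → D.InT α s v →
    u <+: v ∨ v <+: u ∨ D.sp (α.length / 2) u v = true
  bad_dies : ∀ t s, D.Bad t s → ¬ D.pos (t + 1) <+: D.pos (s + 1)
  perm : ∀ s k, (∀ n, n < k → D.a (s + 1) n = D.a s n) →
    (D.pos (s + 1)).take k <+: D.pos (s + 2)

/-- the limits of the enumeration and of the positions -/
structure Lim (A M : ℕ → Bool) : Prop where
  memA : ∀ n, A n = true ↔ ∃ s, D.a s n = true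
  limM : ∀ k, ∃ s0, ∀ s, s0 ≤ s → pre M k <+: D.pos s

/-- the consequence of the hypothesis that the enumerated set is not below `B` -/
def NotBelow (A M : ℕ → Bool) : Prop :=
  ∀ (η : List ℕ) (s0 : ℕ), (∀ n, ∃ u, D.cov (η.length / 2) (pre A u) (pre M n) = true) →
    ¬ ∀ x, A x = false ↔
      ∃ t, s0 ≤ t ∧ D.app t = true ∧ D.pi t = η ++ [x] ∧ D.pos (t + 1) = pre M (t + 1)

/-- the limit is on an enumerable splitting tree -/
def OutTree (M : ℕ → Bool) (e : ℕ) : Prop :=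
  ∃ (α : List ℕ) (s0 : ℕ),
    (∀ s s' u v, s0 ≤ s → s0 ≤ s' → D.InT α s u → D.InT α s' v →
      u <+: v ∨ v <+: u ∨ D.sp e u v = true) ∧
    ∀ n, ∃ s k, s0 ≤ s ∧ n ≤ k ∧ D.InT α s (pre M k)

/-- the limit is on an enumerable tree without splittings -/
def OutFlat (M : ℕ → Bool) (e : ℕ) : Prop :=
  ∃ (α : List ℕ) (s0 : ℕ),
    (∀ t w n, s0 ≤ t → D.Vis α t → D.PreCand α t w → ¬ D.sp e (pre M n) w = true) ∧
    ∀ n, ∃ t k, s0 ≤ t ∧ n ≤ k ∧ D.Vis α t ∧ D.PreCand α t (pre M k)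

/-- the run is computable in the oracles -/
structure Comp (O : Set (ℕ →. ℕ)) : Prop where
  pos : ComputableIn O D.pos
  pi : ComputableIn O D.pi
  vis : ComputableIn O D.vis
  app : ComputableIn O D.app
  inT : ∃ f : List ℕ → ℕ → List Bool → Bool,
    ComputableIn O (fun p : List ℕ × ℕ × List Bool => f p.1 p.2.1 p.2.2) ∧
      ∀ α s w, f α s w = true ↔ D.InT α s w
  preCand : ∃ f : List ℕ → ℕ → List Bool → Bool,
    ComputableIn O (fun p : List ℕ × ℕ × List Bool => f p.1 p.2.1 p.2.2) ∧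
      ∀ α s w, f α s w = true ↔ D.PreCand α s w

variable {D}

lemma R_le (ν : List ℕ) (s : ℕ) : D.R ν s ≤ s := by
  induction s with
  | zero => exact le_rfl
  | succ s ih => rw [R]; split_ifs <;> omega

lemma R_succ_of_le {ν : List ℕ} {s : ℕ} (h : D.pi s ≤ ν) : D.R ν (s + 1) = s + 1 := by
  rw [R, if_pos h]

lemma R_succ_of_not {ν : List ℕ} {s : ℕ} (h : ¬ D.pi s ≤ ν) : D.R ν (s + 1) = D.R ν s := by
  rw [R, if_neg h]

lemma R_mono (ν : List ℕ) {s s' : ℕ} (h : s ≤ s') : D.R ν s ≤ D.R ν s' := by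
  induction h with
  | refl => exact le_rfl
  | @step m _ ih =>
    have := R_le (D := D) ν m
    rw [R]; split_ifs <;> omega

lemma lt_R {ν : List ℕ} {t s : ℕ} (h : t < s) (h' : D.pi t ≤ ν) : t < D.R ν s := by
  have := R_mono (D := D) ν (show t + 1 ≤ s from h)
  rw [R_succ_of_le h'] at this
  exact this

/-- no reset between the last reset and now -/
lemma not_le_of_R_le {ν : List ℕ} {t s : ℕ} (h : D.R ν s ≤ t) (h' : t < s) : ¬ D.pi t ≤ ν :=
  fun h'' => absurd (lt_R h' h'') (not_lt.2 h)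

lemma R_spec (ν : List ℕ) (s : ℕ) :
    D.R ν s = 0 ∨ ∃ t, t < s ∧ D.pi t ≤ ν ∧ D.R ν s = t + 1 := by
  induction s with
  | zero => exact Or.inl rfl
  | succ s ih =>
    by_cases h : D.pi s ≤ ν
    · exact Or.inr ⟨s, by omega, h, R_succ_of_le h⟩
    · rw [R_succ_of_not h]
      exact ih.imp id fun ⟨t, h1, h2⟩ => ⟨t, by omega, h2⟩

lemma R_le_of {ν : List ℕ} {k s : ℕ} (h : ∀ t, k ≤ t → t < s → ¬ D.pi t ≤ ν) : D.R ν s ≤ k := by
  rcases R_spec (D := D) ν s with h0 | ⟨t, h1, h2, h3⟩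
  · omega
  · by_contra hc
    exact h t (by omega) h1 h2

lemma R_node {ν ν' : List ℕ} (h : ν ≤ ν') (s : ℕ) : D.R ν s ≤ D.R ν' s :=
  R_le_of fun _ h1 h2 h3 => not_le_of_R_le h1 h2 (h3.trans h)

lemma R_prefix {ν ν' : List ℕ} (h : ν <+: ν') (s : ℕ) : D.R ν s ≤ D.R ν' s :=
  R_node (le_of_prefix h) s

lemma R_eq {ν : List ℕ} {s s' : ℕ} (h : s ≤ s') (h' : D.R ν s' ≤ s) : D.R ν s = D.R ν s' :=
  le_antisymm (R_mono ν h) (R_le_of fun t h1 h2 h3 => by
    rcases lt_or_ge t s with h4 | h4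
    · exact not_le_of_R_le h1 h4 h3
    · exact not_le_of_R_le (h'.trans h4) h2 h3)

lemma U_le (ν : List ℕ) (s : ℕ) : D.U ν s ≤ s := by
  induction s with
  | zero => exact le_rfl
  | succ s ih => rw [U]; split_ifs <;> omega

lemma U_succ_of_vis {ν : List ℕ} {s : ℕ} (h : D.Vis ν s) : D.U ν (s + 1) = s + 1 :=
  if_pos h

lemma U_succ_of_not {ν : List ℕ} {s : ℕ} (h : ¬ D.Vis ν s) : D.U ν (s + 1) = D.U ν s :=
  if_neg h

lemma U_mono (ν : List ℕ) {s s' : ℕ} (h : s ≤ s') : D.U ν s ≤ D.U ν s' := by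
  induction h with
  | refl => exact le_rfl
  | @step m _ ih =>
    have := U_le (D := D) ν m
    rw [U]; split_ifs <;> omega

lemma lt_U {ν : List ℕ} {t s : ℕ} (h : t < s) (h' : D.Vis ν t) : t < D.U ν s := by
  have := U_mono (D := D) ν (show t + 1 ≤ s from h)
  rw [U_succ_of_vis h'] at this
  exact this

lemma U_spec (ν : List ℕ) (s : ℕ) :
    D.U ν s = 0 ∨ ∃ t, t < s ∧ D.Vis ν t ∧ D.U ν s = t + 1 := by
  induction s with
  | zero => exact Or.inl rfl
  | succ s ih =>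
    by_cases h : D.Vis ν s
    · exact Or.inr ⟨s, by omega, h, U_succ_of_vis h⟩
    · rw [U_succ_of_not h]
      exact ih.imp id fun ⟨t, h1, h2⟩ => ⟨t, by omega, h2⟩

lemma U_eq_of {ν : List ℕ} {s s' : ℕ} (h : s ≤ s') (h' : ∀ t, s ≤ t → t < s' → ¬ D.Vis ν t) :
    D.U ν s' = D.U ν s := by
  induction h with
  | refl => rfl
  | @step m hm ih =>
    rw [U_succ_of_not (h' m hm (Nat.lt_succ_self m)), ih fun t h1 h2 => h' t h1 (by omega)]

lemma Vis.of_prefix {ν ν' : List ℕ} {s : ℕ} (h : D.Vis ν' s) (h' : ν <+: ν') : D.Vis ν s :=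
  ⟨h.1, h'.trans h.2⟩

lemma InT.up {α : List ℕ} {s s' : ℕ} {w : List Bool} (h : D.InT α s w) (h1 : s ≤ s')
    (h2 : D.R α s' ≤ s) : D.InT α s' w := by
  obtain ⟨t, a1, a2, a3⟩ := h
  exact ⟨t, R_eq h1 h2 ▸ a1, by omega, a3⟩

lemma Fol.down {t y s s' : ℕ} {η : List ℕ} (h : D.Fol t η y s) (h1 : t < s') (h2 : s' ≤ s) :
    D.Fol t η y s' := ⟨h.1, h.2.1, (R_mono η h2).trans h.2.2.1, h1⟩

lemma Fol.up {t y s s' : ℕ} {η : List ℕ} (h : D.Fol t η y s) (h1 : s ≤ s')
    (h2 : D.R η s' ≤ s) : D.Fol t η y s' :=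
  ⟨h.1, h.2.1, R_eq h1 h2 ▸ h.2.2.1, h.2.2.2.trans_le h1⟩

lemma Par.a_le (h : D.Par) {s s' n : ℕ} (h1 : s ≤ s') (h2 : D.a s n = true) :
    D.a s' n = true := by
  induction h1 with
  | refl => exact h2
  | step _ ih => exact h.a_mono _ _ ih

lemma Par.sp_mono' (h : D.Par) {e : ℕ} {u u' v v' : List Bool} (h1 : u <+: u') (h2 : v <+: v')
    (h3 : D.sp e u v = true) : D.sp e u' v' = true :=
  h.sp_symm _ _ _ (h.sp_mono _ _ _ _ h2 (h.sp_symm _ _ _ (h.sp_mono _ _ _ _ h1 h3)))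

lemma Par.not_sp (h : D.Par) {e : ℕ} {u v w : List Bool} (h1 : u <+: w) (h2 : v <+: w) :
    ¬ D.sp e u v = true := fun h3 => h.sp_irr e w (h.sp_mono' h1 h2 h3)

lemma OK.mono (h : D.Par) {α : List ℕ} {s : ℕ} {w w' : List Bool} (h1 : D.OK α s w)
    (h2 : w <+: w') : D.OK α s w' := fun v hv =>
  (h1 v hv).imp (fun a => a.trans h2) fun a => h.sp_mono' (List.prefix_refl _) h2 a

end Data

/-- part INV -/
def StInv : Prop := ∀ D : Data, D.Par → D.Steps → D.Facts

/-- part PATH -/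
def StPath : Prop :=
  ∀ (D : Data) (A M : ℕ → Bool), D.Par → D.Steps → D.Facts → D.Lim A M → D.NotBelow A M →
    (∀ n, ∃ x, n ≤ x ∧ A x = false) → ∀ e, (¬ ∀ n, ∃ u, D.cov e (pre A u) (pre M n) = true) ∧ (D.OutTree M e ∨ D.OutFlat M e)

/-- part IMPL -/
def StImpl : Prop :=
  ∀ (O : Set (ℕ →. ℕ)) (a : ℕ → ℕ → Bool) (sp cov : ℕ → List Bool → List Bool → Bool),
    ComputableIn O (fun p : ℕ × ℕ => a p.1 p.2) →
    ComputableIn O (fun p : ℕ × List Bool × List Bool => sp p.1 p.2.1 p.2.2) →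
    ComputableIn O (fun p : ℕ × List Bool × List Bool => cov p.1 p.2.1 p.2.2) →
    (∀ s n, a s n = true → n < s) →
    ∃ D : Data, D.a = a ∧ D.sp = sp ∧ D.cov = cov ∧ D.Steps ∧ D.Comp O

/-- part MAIN -/
def StMain : Prop := StInv → StPath → StImpl → T1

end Pool.Agent.MP_68d28f_lc.CE.Meet
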